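import Mathlib

/-!
# Stanley-Reisner rings, the Koszul complex and bigraded Betti numbers
-/

set_option autoImplicit false

namespace Pool.Agent.Lib_helper98.Betti

open MvPolynomial

universe u

variable (k : Type u) [Field k] {m : ℕ}

/-- The Stanley-Reisner ideal `I_K` of a family `K` of subsets of `{0, …, m-1}`: it is generated
by the squarefree monomials `∏ i ∈ σ, v_i` with `σ ∉ K`. The Stanley-Reisner ring is
`k[K] = MvPolynomial (Fin m) k ⧸ srIdeal k K`. -/
noncomputable def srIdeal (K : Set (Finset (Fin m))) : Ideal (MvPolynomial (Fin m) k) :=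
  Ideal.span {f | ∃ σ : Finset (Fin m), σ ∉ K ∧ f = ∏ i ∈ σ, X i}

/-- The homogeneous component of `k[K]` of polynomial degree `d` (that is, of degree `2d` when
the variables have degree two). -/
noncomputable def facePart (K : Set (Finset (Fin m))) (d : ℕ) :
    Submodule k (MvPolynomial (Fin m) k ⧸ srIdeal k K) :=
  (homogeneousSubmodule (Fin m) k d).map (Ideal.Quotient.mkₐ k (srIdeal k K)).toLinearMap

/-- An element of the Koszul complex `k[K] ⊗ Λ[u_0, …, u_{m-1}]` is given by its coefficients
`f τ ∈ k[K]` at the basis elements `u_τ = u_{t_1} ∧ … ∧ u_{t_i}`, `τ = {t_1 < … < t_i}`; this is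
the function of the Koszul differential. -/
noncomputable def koszulFun (K : Set (Finset (Fin m)))
    (f : Finset (Fin m) → MvPolynomial (Fin m) k ⧸ srIdeal k K) :
    Finset (Fin m) → MvPolynomial (Fin m) k ⧸ srIdeal k K :=
  fun τ => ∑ t ∈ τᶜ, (-1 : MvPolynomial (Fin m) k ⧸ srIdeal k K) ^ (τ.filter (· < t)).card *
    (Ideal.Quotient.mk (srIdeal k K) (X t) * f (insert t τ))

theorem koszulFun_add (K : Set (Finset (Fin m)))
    (f g : Finset (Fin m) → MvPolynomial (Fin m) k ⧸ srIdeal k K) :
    koszulFun k K (f + g) = koszulFun k K f + koszulFun k K g := by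
  funext τ
  simp only [koszulFun, Pi.add_apply, mul_add, Finset.sum_add_distrib]

theorem koszulFun_smul (K : Set (Finset (Fin m))) (c : k)
    (f : Finset (Fin m) → MvPolynomial (Fin m) k ⧸ srIdeal k K) :
    koszulFun k K (c • f) = c • koszulFun k K f := by
  funext τ
  simp only [koszulFun, Pi.smul_apply, mul_smul_comm, Finset.smul_sum]

/-- The Koszul differential: the `k[K]`-linear map with
`d u_τ = ∑_{t ∈ τ} (-1)^{#{s ∈ τ | s < t}} v_t u_{τ ∖ t}`. -/
noncomputable def koszulD (K : Set (Finset (Fin m))) :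
    (Finset (Fin m) → MvPolynomial (Fin m) k ⧸ srIdeal k K) →ₗ[k]
      (Finset (Fin m) → MvPolynomial (Fin m) k ⧸ srIdeal k K) where
  toFun := koszulFun k K
  map_add' := koszulFun_add k K
  map_smul' := koszulFun_smul k K

/-- `f` is a combination of elements `a • u_τ` with `τ` of cardinality `i` and `a ∈ k[K]` of
polynomial degree `j - i`. -/
def IsPart (K : Set (Finset (Fin m))) (i j : ℕ)
    (f : Finset (Fin m) → MvPolynomial (Fin m) k ⧸ srIdeal k K) : Prop :=
  ∀ τ, f τ ∈ facePart k K (j - i) ∧ (f τ ≠ 0 → τ.card = i ∧ i ≤ j)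

theorem isPart_zero (K : Set (Finset (Fin m))) (i j : ℕ) : IsPart k K i j 0 :=
  fun _ => ⟨Submodule.zero_mem _, fun h => absurd rfl h⟩

theorem isPart_add (K : Set (Finset (Fin m))) (i j : ℕ)
    {f g : Finset (Fin m) → MvPolynomial (Fin m) k ⧸ srIdeal k K}
    (hf : IsPart k K i j f) (hg : IsPart k K i j g) : IsPart k K i j (f + g) := by
  intro τ
  refine ⟨Submodule.add_mem _ (hf τ).1 (hg τ).1, fun h => ?_⟩
  by_cases h0 : f τ = 0
  · refine (hg τ).2 fun h1 => h ?_
    rw [Pi.add_apply, h0, h1, add_zero]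
  · exact (hf τ).2 h0

theorem isPart_smul (K : Set (Finset (Fin m))) (i j : ℕ) (c : k)
    {f : Finset (Fin m) → MvPolynomial (Fin m) k ⧸ srIdeal k K}
    (hf : IsPart k K i j f) : IsPart k K i j (c • f) := by
  intro τ
  refine ⟨Submodule.smul_mem _ _ (hf τ).1, fun h => ?_⟩
  refine (hf τ).2 fun h1 => h ?_
  rw [Pi.smul_apply, h1, smul_zero]

/-- The part of the Koszul complex of bidegree `(-i, 2j)`: spanned by the elements `a • u_τ` with
`τ` of cardinality `i` and `a ∈ k[K]` of polynomial degree `j - i`. -/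
noncomputable def koszulPart (K : Set (Finset (Fin m))) (i j : ℕ) :
    Submodule k (Finset (Fin m) → MvPolynomial (Fin m) k ⧸ srIdeal k K) where
  carrier := {f | IsPart k K i j f}
  zero_mem' := isPart_zero k K i j
  add_mem' := isPart_add k K i j
  smul_mem' := isPart_smul k K i j

/-- The cycles of bidegree `(-i, 2j)`. -/
noncomputable abbrev cyclePart (K : Set (Finset (Fin m))) (i j : ℕ) :
    Submodule k (Finset (Fin m) → MvPolynomial (Fin m) k ⧸ srIdeal k K) :=
  koszulPart k K i j ⊓ LinearMap.ker (koszulD k K)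

/-- The boundaries of bidegree `(-i, 2j)`: the image of the part of bidegree `(-(i+1), 2j)`. -/
noncomputable abbrev boundaryPart (K : Set (Finset (Fin m))) (i j : ℕ) :
    Submodule k (Finset (Fin m) → MvPolynomial (Fin m) k ⧸ srIdeal k K) :=
  (koszulPart k K (i + 1) j).map (koszulD k K)

/-- The bigraded Betti number `β^{-i,2j}(K) = dim_k Tor^{-i,2j}_{k[v_0,…,v_{m-1}]}(k[K], k)`, with
`Tor` computed by the Koszul complex: cycles of bidegree `(-i, 2j)` modulo boundaries. -/
noncomputable def betti (K : Set (Finset (Fin m))) (i j : ℕ) : ℕ :=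
  Module.finrank k (↥(cyclePart k K i j) ⧸
    (boundaryPart k K i j).comap (cyclePart k K i j).subtype)

end Pool.Agent.Lib_helper98.Betti
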