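import Mathlib
import Pool.Agent.Lib_helper98.Betti.Defs

set_option autoImplicit false

namespace Pool.Agent.Lib_helper98.Betti

open MvPolynomial

universe u

section
variable (k : Type u) [Field k] {m : ℕ}

/-- The Stanley-Reisner ring `k[K]`. -/
abbrev FaceRing (K : Set (Finset (Fin m))) : Type u := MvPolynomial (Fin m) k ⧸ srIdeal k K

/-- The Koszul complex `k[K] ⊗ Λ[u_0, …, u_{m-1}]`. -/
abbrev Koszul (K : Set (Finset (Fin m))) : Type u := Finset (Fin m) → FaceRing k K

end

variable {k : Type u} [Field k] {m : ℕ} {K : Set (Finset (Fin m))}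

/-- Closed under taking subsets. -/
def Down (K : Set (Finset (Fin m))) : Prop := ∀ σ ∈ K, ∀ τ, τ ⊆ σ → τ ∈ K

/-- The exponent vector of the squarefree monomial of `σ`. -/
noncomputable def ind (σ : Finset (Fin m)) : Fin m →₀ ℕ := ∑ i ∈ σ, Finsupp.single i 1

theorem ind_apply (σ : Finset (Fin m)) (i : Fin m) : ind σ i = if i ∈ σ then 1 else 0 := by
  simp [ind, Finsupp.finsetSum_apply, Finsupp.single_apply]

theorem ind_support (σ : Finset (Fin m)) : (ind σ).support = σ := by
  ext i
  rw [Finsupp.mem_support_iff, ind_apply]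
  simp

theorem prod_X_eq (σ : Finset (Fin m)) :
    (∏ i ∈ σ, X i : MvPolynomial (Fin m) k) = monomial (ind σ) 1 := by
  rw [ind, monomial_sum_one]
  rfl

theorem srIdeal_eq : srIdeal k K =
    Ideal.span ((fun s => monomial s (1 : k)) '' {α | ∃ σ, σ ∉ K ∧ α = ind σ}) := by
  unfold srIdeal
  congr 1
  ext f
  simp only [Set.mem_ofPred_eq, Set.mem_image]
  constructor
  · rintro ⟨σ, hσ, rfl⟩
    exact ⟨ind σ, ⟨σ, hσ, rfl⟩, (prod_X_eq σ).symm⟩
  · rintro ⟨α, ⟨σ, hσ, rfl⟩, rfl⟩
    exact ⟨σ, hσ, (prod_X_eq σ).symm⟩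

theorem mem_srIdeal (hK : Down K) (p : MvPolynomial (Fin m) k) :
    p ∈ srIdeal k K ↔ ∀ α : Fin m →₀ ℕ, α.support ∈ K → coeff α p = 0 := by
  rw [srIdeal_eq, mem_ideal_span_monomial_image]
  constructor
  · intro h α hα
    by_contra hne
    obtain ⟨_, ⟨σ, hσ, rfl⟩, hle⟩ := h α (mem_support_iff.mpr hne)
    refine hσ (hK _ hα _ ?_)
    intro i hi
    have := hle i
    rw [ind_apply, if_pos hi] at this
    rw [Finsupp.mem_support_iff]
    omega
  · intro h α hα
    refine ⟨ind α.support, ⟨α.support, ?_, rfl⟩, ?_⟩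
    · intro hK'
      exact (mem_support_iff.mp hα) (h α hK')
    · intro i
      rw [ind_apply]
      split_ifs with hi
      · rw [Finsupp.mem_support_iff] at hi
        omega
      · omega

open Classical in
/-- The coefficient functional on the polynomial ring, set to zero at monomials outside `K`. -/
noncomputable def cfPoly (k : Type u) [Field k] (K : Set (Finset (Fin m))) (α : Fin m →₀ ℕ) :
    MvPolynomial (Fin m) k →ₗ[k] k :=
  if α.support ∈ K then lcoeff k α else 0

open Classical in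
theorem cfPoly_apply (α : Fin m →₀ ℕ) (p : MvPolynomial (Fin m) k) :
    cfPoly k K α p = if α.support ∈ K then coeff α p else 0 := by
  unfold cfPoly
  split_ifs
  · rfl
  · rfl

theorem le_ker_cfPoly (hK : Down K) (α : Fin m →₀ ℕ) :
    (srIdeal k K).restrictScalars k ≤ LinearMap.ker (cfPoly k K α) := by
  intro p hp
  rw [Submodule.restrictScalars_mem, mem_srIdeal hK] at hp
  rw [LinearMap.mem_ker, cfPoly_apply]
  split_ifs with h
  · exact hp α h
  · rfl

/-- The coefficient functional on `k[K]`. -/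
noncomputable def cf (hK : Down K) (α : Fin m →₀ ℕ) : FaceRing k K →ₗ[k] k :=
  (Submodule.liftQ ((srIdeal k K).restrictScalars k) (cfPoly k K α) (le_ker_cfPoly hK α)) ∘ₗ
    (Submodule.Quotient.restrictScalarsEquiv k (srIdeal k K)).symm.toLinearMap

theorem cf_mk (hK : Down K) (α : Fin m →₀ ℕ) (p : MvPolynomial (Fin m) k) :
    cf hK α (Ideal.Quotient.mk (srIdeal k K) p) = cfPoly k K α p := rfl

theorem cf_of_not_mem (hK : Down K) {α : Fin m →₀ ℕ} (h : α.support ∉ K) (a : FaceRing k K) :
    cf hK α a = 0 := by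
  obtain ⟨p, rfl⟩ := Ideal.Quotient.mk_surjective a
  rw [cf_mk, cfPoly_apply, if_neg h]

theorem cf_ext (hK : Down K) {a b : FaceRing k K} (h : ∀ α, cf hK α a = cf hK α b) : a = b := by
  obtain ⟨p, rfl⟩ := Ideal.Quotient.mk_surjective a
  obtain ⟨q, rfl⟩ := Ideal.Quotient.mk_surjective b
  rw [Ideal.Quotient.eq, mem_srIdeal hK]
  intro α hα
  have := h α
  rw [cf_mk, cf_mk, cfPoly_apply, cfPoly_apply, if_pos hα, if_pos hα] at this
  rw [coeff_sub, this, sub_self]

theorem down_sub (hK : Down K) {α : Fin m →₀ ℕ} (h : α.support ∈ K) (t : Fin m) :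
    (α - Finsupp.single t 1).support ∈ K := by
  refine hK _ h _ ?_
  intro i hi
  rw [Finsupp.mem_support_iff, Finsupp.tsub_apply] at hi
  rw [Finsupp.mem_support_iff]
  omega

open Classical in
theorem cf_X_mul (hK : Down K) (α : Fin m →₀ ℕ) (t : Fin m) (a : FaceRing k K) :
    cf hK α (Ideal.Quotient.mk (srIdeal k K) (X t) * a) =
      if α.support ∈ K ∧ α t ≠ 0 then cf hK (α - Finsupp.single t 1) a else 0 := by
  obtain ⟨p, rfl⟩ := Ideal.Quotient.mk_surjective a
  rw [← map_mul, cf_mk, cf_mk, cfPoly_apply, cfPoly_apply, coeff_X_mul']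
  by_cases h : α.support ∈ K
  · rw [if_pos h, if_pos (down_sub hK h t)]
    by_cases ht : α t = 0
    · rw [if_neg (by simpa using ht), if_neg (by simp [ht])]
    · rw [if_pos (by simpa using ht), if_pos ⟨h, ht⟩]
  · rw [if_neg h, if_neg (fun hh => h hh.1)]

/-- An element is in the degree `d` part iff its coefficients vanish in other degrees. -/
theorem mem_facePart (hK : Down K) (d : ℕ) (a : FaceRing k K) :
    a ∈ facePart k K d ↔ ∀ α : Fin m →₀ ℕ, α.degree ≠ d → cf hK α a = 0 := by
  classical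
  constructor
  · rintro ⟨p, hp, rfl⟩ α hα
    change cf hK α (Ideal.Quotient.mk (srIdeal k K) p) = 0
    rw [cf_mk, cfPoly_apply]
    split_ifs with h
    · by_contra hne
      exact hα (by rw [Finsupp.degree_eq_weight_one]; exact hp hne)
    · rfl
  · intro h
    obtain ⟨p, rfl⟩ := Ideal.Quotient.mk_surjective a
    refine ⟨homogeneousComponent d p, homogeneousComponent_isHomogeneous d p, ?_⟩
    change Ideal.Quotient.mk (srIdeal k K) (homogeneousComponent d p) = _
    apply cf_ext hK
    intro α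
    by_cases hα : α.degree = d
    · rw [cf_mk, cf_mk, cfPoly_apply, cfPoly_apply, coeff_homogeneousComponent, if_pos hα]
    · rw [h α hα, cf_mk, cfPoly_apply, coeff_homogeneousComponent, if_neg hα]
      simp

/-- The monomial `v^α` in `k[K]`. -/
noncomputable def mon (k : Type u) [Field k] (K : Set (Finset (Fin m))) (α : Fin m →₀ ℕ) :
    FaceRing k K := Ideal.Quotient.mk (srIdeal k K) (monomial α 1)

open Classical in
theorem cf_mon (hK : Down K) (α β : Fin m →₀ ℕ) :
    cf hK α (mon k K β) = if α.support ∈ K ∧ β = α then 1 else 0 := by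
  rw [mon, cf_mk, cfPoly_apply, coeff_monomial]
  by_cases h : α.support ∈ K
  · simp [h]
  · simp [h]

end Pool.Agent.Lib_helper98.Betti
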