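import Mathlib

set_option autoImplicit false

/-!
# Exactness of combinatorial Koszul complexes by removal of pairs
-/

namespace Pool.Agent.Lib_helper98.Betti

open Finset

universe u

variable {k : Type u} [Field k] {m : ℕ}

/-- The Koszul sign. -/
def ksgn (k : Type u) [Field k] (t : Fin m) (τ : Finset (Fin m)) : k :=
  (-1) ^ (τ.filter (· < t)).card

theorem ksgn_mul_self (t : Fin m) (τ : Finset (Fin m)) : ksgn k t τ * ksgn k t τ = 1 := by
  unfold ksgn
  rw [← pow_add, ← two_mul, pow_mul]
  simp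

theorem ksgn_ne_zero (t : Fin m) (τ : Finset (Fin m)) : ksgn k t τ ≠ 0 := by
  intro h
  have := ksgn_mul_self (k := k) t τ
  rw [h, zero_mul] at this
  exact zero_ne_one this

theorem ksgn_insert {s t : Fin m} {τ : Finset (Fin m)} (ht : t ∉ τ) :
    ksgn k s (insert t τ) = ksgn k s τ * (if t < s then -1 else 1) := by
  unfold ksgn
  rw [Finset.filter_insert]
  split_ifs with h
  · rw [Finset.card_insert_of_notMem (by simp [ht]), pow_succ]
  · rw [mul_one]

theorem ksgn_anti {s t : Fin m} {τ : Finset (Fin m)} (hs : s ∉ τ) (ht : t ∉ τ) (hst : s ≠ t) :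
    ksgn k t τ * ksgn k s (insert t τ) = -(ksgn k s τ * ksgn k t (insert s τ)) := by
  rw [ksgn_insert ht, ksgn_insert hs]
  rcases lt_or_gt_of_ne hst with h | h
  · rw [if_neg (by exact not_lt.mpr h.le), if_pos h]; ring
  · rw [if_pos h, if_neg (by exact not_lt.mpr h.le)]; ring

open Classical in
/-- The Koszul type differential of functions on a family `V` of subsets. -/
noncomputable def bd (V : Set (Finset (Fin m))) (F : Finset (Fin m) → k) (τ : Finset (Fin m)) : k :=
  if τ ∈ V then ∑ t ∈ τᶜ, ksgn k t τ * F (insert t τ) else 0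

/-- `F` is supported on the members of `V` of cardinality `i`. -/
def Supp (V : Set (Finset (Fin m))) (i : ℕ) (F : Finset (Fin m) → k) : Prop :=
  ∀ τ, F τ ≠ 0 → τ ∈ V ∧ τ.card = i

/-- Exactness in degree `i`. -/
def Exact (k : Type u) [Field k] (V : Set (Finset (Fin m))) (i : ℕ) : Prop :=
  ∀ F : Finset (Fin m) → k, Supp V i F → (∀ τ, bd V F τ = 0) →
    ∃ G : Finset (Fin m) → k, Supp V (i + 1) G ∧ ∀ τ, bd V G τ = F τ

/-- The families for which the differential squares to zero. -/
def Good (V : Set (Finset (Fin m))) : Prop :=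
  ∀ τ ∈ V, ∀ s t, insert s (insert t τ) ∈ V → insert t τ ∈ V

theorem bd_of_mem {V : Set (Finset (Fin m))} {τ : Finset (Fin m)} (h : τ ∈ V)
    (F : Finset (Fin m) → k) : bd V F τ = ∑ t ∈ τᶜ, ksgn k t τ * F (insert t τ) := by
  unfold bd
  rw [if_pos h]

theorem bd_of_not_mem {V : Set (Finset (Fin m))} {τ : Finset (Fin m)} (h : τ ∉ V)
    (F : Finset (Fin m) → k) : bd V F τ = 0 := by
  unfold bd
  rw [if_neg h]

theorem bd_sub (V : Set (Finset (Fin m))) (F G : Finset (Fin m) → k) (τ : Finset (Fin m)) :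
    bd V (fun ρ => F ρ - G ρ) τ = bd V F τ - bd V G τ := by
  by_cases h : τ ∈ V
  · rw [bd_of_mem h, bd_of_mem h, bd_of_mem h, ← Finset.sum_sub_distrib]
    exact Finset.sum_congr rfl fun t _ => by ring
  · rw [bd_of_not_mem h, bd_of_not_mem h, bd_of_not_mem h, sub_zero]

theorem bd_add (V : Set (Finset (Fin m))) (F G : Finset (Fin m) → k) (τ : Finset (Fin m)) :
    bd V (fun ρ => F ρ + G ρ) τ = bd V F τ + bd V G τ := by
  by_cases h : τ ∈ V
  · rw [bd_of_mem h, bd_of_mem h, bd_of_mem h, ← Finset.sum_add_distrib]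
    exact Finset.sum_congr rfl fun t _ => by ring
  · rw [bd_of_not_mem h, bd_of_not_mem h, bd_of_not_mem h, add_zero]

/-- `∂² = 0`. -/
theorem bd_bd {V : Set (Finset (Fin m))} (hV : Good V) (F : Finset (Fin m) → k)
    (hF : ∀ τ, F τ ≠ 0 → τ ∈ V) (τ : Finset (Fin m)) : bd V (bd V F) τ = 0 := by
  by_cases hτ : τ ∈ V
  swap
  · exact bd_of_not_mem hτ _
  rw [bd_of_mem hτ]
  have h1 : ∀ t ∈ τᶜ, ksgn k t τ * bd V F (insert t τ) =
      ∑ s ∈ τᶜ, if s = t then 0 else
        ksgn k t τ * (ksgn k s (insert t τ) * F (insert s (insert t τ))) := by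
    intro t ht
    have ht' : t ∉ τ := by simpa using ht
    by_cases hV' : insert t τ ∈ V
    · rw [bd_of_mem hV', Finset.mul_sum]
      have : τᶜ = insert t (insert t τ)ᶜ := by
        ext x
        by_cases hx : x = t
        · subst hx; simp [ht']
        · simp [hx]
      rw [this, Finset.sum_insert (by simp), if_pos rfl, zero_add]
      refine Finset.sum_congr rfl fun s hs => ?_
      have : s ≠ t := by
        rintro rfl
        simp at hs
      rw [if_neg this]
    · rw [bd_of_not_mem hV', mul_zero]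
      symm
      refine Finset.sum_eq_zero fun s _ => ?_
      split_ifs with h
      · rfl
      · have : F (insert s (insert t τ)) = 0 := by
          by_contra hne
          exact hV' (hV τ hτ s t (hF _ hne))
        rw [this, mul_zero, mul_zero]
  rw [Finset.sum_congr rfl h1, ← Finset.sum_product']
  refine Finset.sum_involution (fun p _ => (p.2, p.1)) ?_ ?_ ?_ ?_
  · rintro ⟨t, s⟩ hp
    simp only [Finset.mem_product, Finset.mem_compl] at hp
    by_cases h : s = t
    · subst h; simp
    · simp only [if_neg h, if_neg (Ne.symm h)]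
      rw [Finset.insert_comm t s τ, ← mul_assoc, ← mul_assoc, ksgn_anti hp.2 hp.1 h]
      ring
  · rintro ⟨t, s⟩ hp hne heq
    simp only [Prod.mk.injEq] at heq
    apply hne
    simp [heq.1]
  · rintro ⟨t, s⟩ hp
    simp only [Finset.mem_product, Finset.mem_compl] at hp ⊢
    exact ⟨hp.2, hp.1⟩
  · rintro ⟨t, s⟩ hp
    rfl

/-- Removing a critical minimal member. -/
theorem exact_of_crit {V : Set (Finset (Fin m))} {c : Finset (Fin m)}
    (hmin : ∀ τ ∈ V, ∀ t, t ∉ τ → insert t τ ≠ c) {i : ℕ} (hi : i ≠ c.card)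
    (h : Exact k (V \ {c}) i) : Exact k V i := by
  intro F hF hbd
  have hFc : F c = 0 := by
    by_contra hne
    exact hi (hF c hne).2.symm
  have hsupp : Supp (V \ {c}) i F := by
    intro τ hτ
    refine ⟨⟨(hF τ hτ).1, ?_⟩, (hF τ hτ).2⟩
    rintro rfl
    exact hτ hFc
  have hsame : ∀ (H : Finset (Fin m) → k) (τ : Finset (Fin m)), τ ≠ c →
      bd (V \ {c}) H τ = bd V H τ := by
    intro H τ hτ
    by_cases hV : τ ∈ V
    · rw [bd_of_mem (V := V) hV, bd_of_mem (V := V \ {c}) ⟨hV, hτ⟩]
    · rw [bd_of_not_mem hV, bd_of_not_mem (fun h => hV h.1)]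
  obtain ⟨G, hG, hbG⟩ := h F hsupp (by
    intro τ
    by_cases hτ : τ = c
    · subst hτ
      exact bd_of_not_mem (fun h => h.2 rfl) _
    · rw [hsame F τ hτ, hbd τ])
  refine ⟨G, fun τ hτ => ⟨(hG τ hτ).1.1, (hG τ hτ).2⟩, ?_⟩
  intro τ
  by_cases hτ : τ = c
  · subst hτ
    rw [hFc]
    by_cases hV : τ ∈ V
    · rw [bd_of_mem hV]
      refine Finset.sum_eq_zero fun t ht => ?_
      have : G (insert t τ) = 0 := by
        by_contra hne
        have h1 := (hG _ hne).2
        rw [Finset.card_insert_of_notMem (by simpa using ht)] at h1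
        omega
      rw [this, mul_zero]
    · exact bd_of_not_mem hV _
  · rw [← hsame G τ hτ, hbG τ]

theorem good_of_crit {V : Set (Finset (Fin m))} {c : Finset (Fin m)} (hV : Good V)
    (hmin : ∀ τ ∈ V, ∀ t, t ∉ τ → insert t τ ≠ c) : Good (V \ {c}) := by
  intro τ hτ s t hst
  refine ⟨hV τ hτ.1 s t hst.1, ?_⟩
  intro hc
  by_cases ht : t ∈ τ
  · rw [Finset.insert_eq_of_mem ht] at hc
    exact hτ.2 hc
  · exact hmin τ hτ.1 t ht hc

/-- Removing a free pair `c ⊂ insert v c`: the only member of `V` obtained from `insert v c` by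
deleting one element is `c`, and no member of `V` is obtained from `c` by deleting one. -/
theorem exact_of_pair {V : Set (Finset (Fin m))} (hV : Good V) {c : Finset (Fin m)} {v : Fin m}
    (hv : v ∉ c) (hc : c ∈ V) (hvc : insert v c ∈ V)
    (hmin : ∀ τ ∈ V, ∀ t, t ∉ τ → insert t τ ≠ c)
    (hmin2 : ∀ τ ∈ V, ∀ t, t ∉ τ → insert t τ = insert v c → τ = c) {i : ℕ}
    (h : Exact k (V \ {c, insert v c}) i) : Exact k V i := by
  classical
  intro F hF hbd
  set d := insert v c with hd
  have hcd : c ≠ d := by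
    intro h
    exact hv (by rw [h, hd]; simp)
  have hcard : d.card = c.card + 1 := Finset.card_insert_of_notMem hv
  set V' : Set (Finset (Fin m)) := V \ {c, d} with hV'
  have hV'mem : ∀ τ, τ ∈ V' ↔ τ ∈ V ∧ τ ≠ c ∧ τ ≠ d := by
    intro τ
    simp [hV']
  -- values at `c` and `d` are not seen from `V'`
  have hunseen : ∀ τ ∈ V', ∀ t, t ∉ τ → insert t τ ≠ c ∧ insert t τ ≠ d := by
    intro τ hτ t ht
    rw [hV'mem] at hτ
    refine ⟨hmin τ hτ.1 t ht, fun h => hτ.2.1 (hmin2 τ hτ.1 t ht h)⟩
  set F' : Finset (Fin m) → k := fun τ => if τ = c ∨ τ = d then 0 else F τ with hF'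
  have hbd' : ∀ τ, bd V' F' τ = 0 := by
    intro τ
    by_cases hτ : τ ∈ V'
    · rw [bd_of_mem hτ]
      have hτV := (hV'mem τ).mp hτ
      have := hbd τ
      rw [bd_of_mem hτV.1] at this
      rw [← this]
      refine Finset.sum_congr rfl fun t ht => ?_
      have hu := hunseen τ hτ t (by simpa using ht)
      simp only [hF', hu.1, hu.2, or_self, if_false]
    · exact bd_of_not_mem hτ _
  obtain ⟨G, hG, hbG⟩ := h F' (by
    intro τ hτ
    by_cases h1 : τ = c ∨ τ = d
    · simp [hF', h1] at hτ
    · have h2 : F' τ = F τ := by simp only [hF', if_neg h1]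
      rw [h2] at hτ
      push Not at h1
      exact ⟨(hV'mem τ).mpr ⟨(hF τ hτ).1, h1⟩, (hF τ hτ).2⟩) hbd'
  have hGV : ∀ τ, G τ ≠ 0 → τ ∈ V := fun τ hτ => ((hV'mem τ).mp (hG τ hτ).1).1
  have hGeq : ∀ τ ∈ V', bd V G τ = F τ := by
    intro τ hτ
    have hτV := (hV'mem τ).mp hτ
    have h1 := hbG τ
    rw [bd_of_mem hτ] at h1
    rw [bd_of_mem hτV.1, h1]
    simp only [hF', hτV.2.1, hτV.2.2, or_self, if_false]
  -- the remaining error
  set E : Finset (Fin m) → k := fun τ => F τ - bd V G τ with hE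
  have hEsupp : ∀ τ, E τ ≠ 0 → (τ = c ∨ τ = d) := by
    intro τ hτ
    by_contra hne
    push Not at hne
    apply hτ
    by_cases hV1 : τ ∈ V
    · simp only [hE, hGeq τ ((hV'mem τ).mpr ⟨hV1, hne⟩), sub_self]
    · have : F τ = 0 := by
        by_contra h0
        exact hV1 (hF τ h0).1
      simp only [hE, this, bd_of_not_mem hV1, sub_self]
  have hEbd : ∀ τ, bd V E τ = 0 := by
    intro τ
    rw [hE, bd_sub, hbd τ, bd_bd hV G hGV, sub_zero]
  have hEcard : ∀ τ, E τ ≠ 0 → τ.card = i := by
    intro τ hτ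
    by_contra hne
    apply hτ
    have h1 : F τ = 0 := by
      by_contra h0
      exact hne (hF τ h0).2
    have h2 : bd V G τ = 0 := by
      by_cases hV1 : τ ∈ V
      · rw [bd_of_mem hV1]
        refine Finset.sum_eq_zero fun t ht => ?_
        have : G (insert t τ) = 0 := by
          by_contra h0
          have h3 := (hG _ h0).2
          rw [Finset.card_insert_of_notMem (by simpa using ht)] at h3
          omega
        rw [this, mul_zero]
      · exact bd_of_not_mem hV1 _
    simp only [hE, h1, h2, sub_self]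
  -- the value at `d` vanishes
  have hcomp : ∀ (H : Finset (Fin m) → k), (∀ τ, H τ ≠ 0 → τ = c ∨ τ = d) →
      bd V H c = ksgn k v c * H d := by
    intro H hH
    rw [bd_of_mem hc, Finset.sum_eq_single v]
    · intro t ht htv
      have : H (insert t c) = 0 := by
        by_contra h0
        rcases hH _ h0 with h1 | h1
        · have : t ∈ c := by rw [← h1]; simp
          simp [this] at ht
        · have h2 : t ∈ d := by rw [← h1]; simp
          rw [hd, Finset.mem_insert] at h2
          rcases h2 with h2 | h2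
          · exact htv h2
          · simp [h2] at ht
      rw [this, mul_zero]
    · intro h0
      simp [hv] at h0
  have hEd : E d = 0 := by
    have h1 := hcomp E hEsupp
    rw [hEbd c] at h1
    exact (mul_eq_zero.mp h1.symm).resolve_left (ksgn_ne_zero v c)
  by_cases hEc : E c = 0
  · -- no error
    have hE0 : ∀ τ, bd V G τ = F τ := by
      intro τ
      by_contra hne
      have : E τ ≠ 0 := fun h0 => hne (sub_eq_zero.mp h0).symm
      rcases hEsupp τ this with rfl | h2
      · exact this hEc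
      · exact this (h2 ▸ hEd)
    exact ⟨G, fun τ hτ => ⟨hGV τ hτ, (hG τ hτ).2⟩, hE0⟩
  · have hci : c.card = i := hEcard c hEc
    set H : Finset (Fin m) → k := fun τ => if τ = d then ksgn k v c * E c else 0 with hH
    have hHd : H d = ksgn k v c * E c := by simp [hH]
    have hHsupp : ∀ τ, H τ ≠ 0 → τ = c ∨ τ = d := by
      intro τ hτ
      right
      by_contra hne
      exact hτ (by simp [hH, hne])
    have hHbd : ∀ τ, bd V H τ = E τ := by
      intro τ
      by_cases hτc : τ = c
      · subst hτc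
        rw [hcomp H hHsupp, hHd, ← mul_assoc, ksgn_mul_self, one_mul]
      · have hEτ : E τ = 0 := by
          by_contra h0
          rcases hEsupp τ h0 with h1 | h1
          · exact hτc h1
          · exact h0 (h1 ▸ hEd)
        rw [hEτ]
        by_cases hV1 : τ ∈ V
        · rw [bd_of_mem hV1]
          refine Finset.sum_eq_zero fun t ht => ?_
          have : H (insert t τ) = 0 := by
            by_contra h0
            have h1 : insert t τ = d := by
              by_contra hne
              exact h0 (by simp [hH, hne])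
            exact hτc (hmin2 τ hV1 t (by simpa using ht) h1)
          rw [this, mul_zero]
        · exact bd_of_not_mem hV1 _
    refine ⟨fun τ => G τ + H τ, ?_, ?_⟩
    · intro τ hτ
      by_cases hG0 : G τ = 0
      · have hH0 : H τ ≠ 0 := by
          intro h0
          exact hτ (by simp [hG0, h0])
        have : τ = d := by
          by_contra hne
          exact hH0 (by simp [hH, hne])
        subst this
        exact ⟨hvc, by rw [hcard, hci]⟩
      · exact ⟨hGV τ hG0, (hG τ hG0).2⟩
    · intro τ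
      rw [bd_add, hHbd τ]
      simp only [hE]
      ring

theorem good_of_pair {V : Set (Finset (Fin m))} (hV : Good V) {c : Finset (Fin m)} {v : Fin m}
    (hmin : ∀ τ ∈ V, ∀ t, t ∉ τ → insert t τ ≠ c)
    (hmin2 : ∀ τ ∈ V, ∀ t, t ∉ τ → insert t τ = insert v c → τ = c) :
    Good (V \ {c, insert v c}) := by
  intro τ hτ s t hst
  simp only [Set.mem_sdiff, Set.mem_insert_iff, Set.mem_singleton_iff, not_or] at hτ hst ⊢
  refine ⟨hV τ hτ.1 s t hst.1, ?_⟩
  by_cases ht : t ∈ τ
  · rw [Finset.insert_eq_of_mem ht]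
    exact hτ.2
  · exact ⟨hmin τ hτ.1 t ht, fun h => hτ.2.1 (hmin2 τ hτ.1 t ht h)⟩

/-- `V` can be emptied by removing free pairs and minimal members of cardinality `c`. -/
inductive Red (n : ℕ) : Set (Finset (Fin m)) → Prop
  | empty : Red n ∅
  | crit (V : Set (Finset (Fin m))) (c : Finset (Fin m)) (hcard : c.card = n)
      (hmin : ∀ τ ∈ V, ∀ t, t ∉ τ → insert t τ ≠ c) (h : Red n (V \ {c})) : Red n V
  | pair (V : Set (Finset (Fin m))) (c : Finset (Fin m)) (v : Fin m) (hv : v ∉ c) (hc : c ∈ V)
      (hvc : insert v c ∈ V) (hmin : ∀ τ ∈ V, ∀ t, t ∉ τ → insert t τ ≠ c)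
      (hmin2 : ∀ τ ∈ V, ∀ t, t ∉ τ → insert t τ = insert v c → τ = c)
      (h : Red n (V \ {c, insert v c})) : Red n V

theorem exact_of_red {n : ℕ} {V : Set (Finset (Fin m))} (h : Red n V) (hV : Good V) {i : ℕ}
    (hi : i ≠ n) : Exact k V i := by
  induction h with
  | empty =>
    intro F hF _
    refine ⟨fun _ => 0, fun τ hτ => absurd rfl hτ, ?_⟩
    intro τ
    rw [bd_of_not_mem (Set.notMem_empty τ)]
    by_contra hne
    exact (Set.notMem_empty τ) (hF τ (Ne.symm hne)).1
  | crit V c hcard hmin _ ih =>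
    exact exact_of_crit hmin (by rw [hcard]; exact hi) (ih (good_of_crit hV hmin))
  | pair V c v hv hc hvc hmin hmin2 _ ih =>
    exact exact_of_pair hV hv hc hvc hmin hmin2 (ih (good_of_pair hV hmin hmin2))

end Pool.Agent.Lib_helper98.Betti
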