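import Mathlib
import Pool.Agent.Lib_helper98.Betti.Coeff
import Pool.Agent.Lib_helper98.Betti.Morse

set_option autoImplicit false

namespace Pool.Agent.Lib_helper98.Betti

open MvPolynomial Finset

universe u

variable {k : Type u} [Field k] {m : ℕ} {K : Set (Finset (Fin m))}

/-- A family invariant under insertion of `t₀` is exact. -/
theorem exact_of_cone {V : Set (Finset (Fin m))} (t₀ : Fin m)
    (h : ∀ τ, τ ∈ V ↔ insert t₀ τ ∈ V) (i : ℕ) : Exact k V i := by
  classical
  intro F hF hbd
  refine ⟨fun τ => if t₀ ∈ τ then ksgn k t₀ (τ.erase t₀) * F (τ.erase t₀) else 0, ?_, ?_⟩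
  · intro τ hτ
    by_cases ht : t₀ ∈ τ
    · simp only [if_pos ht] at hτ
      have h1 := hF _ (right_ne_zero_of_mul hτ)
      refine ⟨?_, ?_⟩
      · rw [h, Finset.insert_erase ht] at h1
        exact h1.1
      · have := Finset.card_erase_add_one ht
        omega
    · simp only [if_neg ht] at hτ
      exact absurd rfl hτ
  · intro τ
    by_cases hτ : τ ∈ V
    swap
    · rw [bd_of_not_mem hτ]
      by_contra hne
      exact hτ (hF τ (Ne.symm hne)).1
    rw [bd_of_mem hτ]
    by_cases ht : t₀ ∈ τ
    · set ρ := τ.erase t₀ with hρ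
      have hρτ : insert t₀ ρ = τ := Finset.insert_erase ht
      have htρ : t₀ ∉ ρ := Finset.notMem_erase t₀ τ
      have hρV : ρ ∈ V := by rw [h, hρτ]; exact hτ
      have h1 := hbd ρ
      rw [bd_of_mem hρV] at h1
      have h2 : ρᶜ = insert t₀ τᶜ := by
        ext x
        rw [hρ]
        simp only [Finset.mem_compl, Finset.mem_erase, Finset.mem_insert]
        by_cases hx : x = t₀
        · simp [hx]
        · simp [hx]
      rw [h2, Finset.sum_insert (by simpa using ht), hρτ] at h1
      have h3 : ∀ t ∈ τᶜ, ksgn k t τ * (if t₀ ∈ insert t τ then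
          ksgn k t₀ ((insert t τ).erase t₀) * F ((insert t τ).erase t₀) else 0) =
          -(ksgn k t₀ ρ * (ksgn k t ρ * F (insert t ρ))) := by
        intro t htt
        have htt' : t ∉ τ := by simpa using htt
        have hne : t ≠ t₀ := by
          rintro rfl
          exact htt' ht
        have htρ' : t ∉ ρ := fun hh => htt' (Finset.mem_of_mem_erase hh)
        rw [if_pos (Finset.mem_insert_of_mem ht), Finset.erase_insert_of_ne hne, ← hρ]
        have h4 := ksgn_anti (k := k) htρ' htρ hne
        rw [hρτ] at h4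
        have h5 := ksgn_mul_self (k := k) t₀ ρ
        have h6 := ksgn_mul_self (k := k) t₀ (insert t ρ)
        -- multiply
        have h7 : ksgn k t τ * ksgn k t₀ (insert t ρ) = -(ksgn k t₀ ρ * ksgn k t ρ) := by
          have : ksgn k t τ = -(ksgn k t₀ ρ * (ksgn k t ρ * ksgn k t₀ (insert t ρ))) := by
            calc ksgn k t τ = (ksgn k t₀ ρ * ksgn k t₀ ρ) * ksgn k t τ := by rw [h5, one_mul]
              _ = ksgn k t₀ ρ * (ksgn k t₀ ρ * ksgn k t τ) := by ring
              _ = _ := by rw [h4]; ring
          rw [this]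
          calc -(ksgn k t₀ ρ * (ksgn k t ρ * ksgn k t₀ (insert t ρ))) * ksgn k t₀ (insert t ρ)
              = -(ksgn k t₀ ρ * ksgn k t ρ * (ksgn k t₀ (insert t ρ) *
                ksgn k t₀ (insert t ρ))) := by ring
            _ = _ := by rw [h6, mul_one]
        calc ksgn k t τ * (ksgn k t₀ (insert t ρ) * F (insert t ρ))
            = (ksgn k t τ * ksgn k t₀ (insert t ρ)) * F (insert t ρ) := by ring
          _ = _ := by rw [h7]; ring
      rw [Finset.sum_congr rfl h3, Finset.sum_neg_distrib, ← Finset.mul_sum]
      have h8 : ∑ t ∈ τᶜ, ksgn k t ρ * F (insert t ρ) = -(ksgn k t₀ ρ * F τ) := by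
        linear_combination h1
      rw [h8]
      calc -(ksgn k t₀ ρ * -(ksgn k t₀ ρ * F τ)) = (ksgn k t₀ ρ * ksgn k t₀ ρ) * F τ := by ring
        _ = F τ := by rw [ksgn_mul_self, one_mul]
    · rw [Finset.sum_eq_single t₀]
      · rw [if_pos (Finset.mem_insert_self _ _), Finset.erase_insert ht, ← mul_assoc,
          ksgn_mul_self, one_mul]
      · intro t _ hne
        rw [if_neg, mul_zero]
        rw [Finset.mem_insert]
        push Not
        exact ⟨fun h => hne h.symm, ht⟩
      · intro h0
        simp [ht] at h0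

theorem neg_one_pow_mul_eq_smul (n : ℕ) (a : FaceRing k K) :
    (-1 : FaceRing k K) ^ n * a = ((-1 : k) ^ n) • a := by
  induction n with
  | zero => rw [pow_zero, pow_zero, one_mul, one_smul]
  | succ n ih =>
    calc (-1 : FaceRing k K) ^ (n + 1) * a = -((-1) ^ n * a) := by ring
      _ = -(((-1 : k) ^ n) • a) := by rw [ih]
      _ = ((-1 : k) ^ (n + 1)) • a := by rw [pow_succ (-1 : k) n, mul_neg_one, neg_smul]

/-- The multidegree `γ` piece: the sets `τ` with `v^(γ - 1_τ) u_τ` a basis element. -/
def piece (K : Set (Finset (Fin m))) (γ : Fin m →₀ ℕ) : Set (Finset (Fin m)) :=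
  {τ | τ ⊆ γ.support ∧ (γ - ind τ).support ∈ K}

open Classical in
/-- The component of multidegree `γ`. -/
noncomputable def comp (hK : Down K) (γ : Fin m →₀ ℕ) (F : Koszul k K) (τ : Finset (Fin m)) : k :=
  if τ ⊆ γ.support then cf hK (γ - ind τ) (F τ) else 0

theorem ind_insert {t : Fin m} {τ : Finset (Fin m)} (ht : t ∉ τ) :
    ind (insert t τ) = ind τ + Finsupp.single t 1 := by
  rw [ind, Finset.sum_insert ht, add_comm]
  rfl

theorem comp_koszulD (hK : Down K) (γ : Fin m →₀ ℕ) (F : Koszul k K) {τ : Finset (Fin m)}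
    (hτ : τ ∈ piece K γ) :
    cf hK (γ - ind τ) (koszulD k K F τ) = bd (piece K γ) (comp hK γ F) τ := by
  classical
  rw [bd_of_mem hτ]
  change cf hK (γ - ind τ) (∑ t ∈ τᶜ, (-1 : FaceRing k K) ^ (τ.filter (· < t)).card *
    (Ideal.Quotient.mk (srIdeal k K) (X t) * F (insert t τ))) = _
  rw [map_sum]
  refine Finset.sum_congr rfl fun t ht => ?_
  have ht' : t ∉ τ := by simpa using ht
  have h1 : (-1 : FaceRing k K) ^ (τ.filter (· < t)).card *
      (Ideal.Quotient.mk (srIdeal k K) (X t) * F (insert t τ)) =
      ksgn k t τ • (Ideal.Quotient.mk (srIdeal k K) (X t) * F (insert t τ)) :=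
    neg_one_pow_mul_eq_smul _ _
  rw [h1, map_smul, smul_eq_mul, cf_X_mul, comp]
  congr 1
  have h2 : (γ - ind τ) t = γ t := by
    rw [Finsupp.tsub_apply, ind_apply, if_neg ht', Nat.sub_zero]
  rw [h2, tsub_tsub, ← ind_insert ht']
  by_cases h3 : γ t = 0
  · rw [if_neg (fun h => h.2 h3), if_neg]
    intro hsub
    have := hsub (Finset.mem_insert_self t τ)
    rw [Finsupp.mem_support_iff] at this
    exact this h3
  · rw [if_pos ⟨hτ.2, h3⟩, if_pos]
    intro x hx
    rw [Finset.mem_insert] at hx
    rcases hx with rfl | hx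
    · rwa [Finsupp.mem_support_iff]
    · exact hτ.1 hx

theorem degree_ind (τ : Finset (Fin m)) : (ind τ).degree = τ.card := by
  rw [ind, map_sum]
  simp

theorem mem_koszulPart (hK : Down K) (i j : ℕ) (F : Koszul k K) :
    F ∈ koszulPart k K i j ↔
      ∀ τ α, cf hK α (F τ) ≠ 0 → τ.card = i ∧ α.degree + i = j := by
  constructor
  · intro h τ α hne
    have h0 : F τ ≠ 0 := by
      intro h0
      rw [h0, map_zero] at hne
      exact hne rfl
    obtain ⟨h1, h2⟩ := (h τ).2 h0
    refine ⟨h1, ?_⟩
    have h3 := (mem_facePart hK (j - i) (F τ)).mp (h τ).1 α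
    by_contra h4
    exact hne (h3 (by omega))
  · intro h τ
    refine ⟨?_, ?_⟩
    · rw [mem_facePart hK]
      intro α hα
      by_contra hne
      have := (h τ α hne).2
      omega
    · intro hne
      obtain ⟨α, hα⟩ : ∃ α, cf hK α (F τ) ≠ 0 := by
        by_contra hcon
        push Not at hcon
        exact hne (cf_ext hK (fun α => by rw [hcon α, map_zero]))
      have := h τ α hα
      exact ⟨this.1, by omega⟩

/-- The differential preserves the internal degree. -/
theorem koszulD_mem (hK : Down K) {i j : ℕ} {F : Koszul k K} (hF : F ∈ koszulPart k K (i + 1) j) :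
    koszulD k K F ∈ koszulPart k K i j := by
  classical
  rw [mem_koszulPart hK] at hF ⊢
  intro τ α hne
  by_contra hcon
  apply hne
  change cf hK α (∑ t ∈ τᶜ, (-1 : FaceRing k K) ^ (τ.filter (· < t)).card *
    (Ideal.Quotient.mk (srIdeal k K) (X t) * F (insert t τ))) = 0
  rw [map_sum]
  refine Finset.sum_eq_zero fun t ht => ?_
  have ht' : t ∉ τ := by simpa using ht
  have h1 : (-1 : FaceRing k K) ^ (τ.filter (· < t)).card *
      (Ideal.Quotient.mk (srIdeal k K) (X t) * F (insert t τ)) =
      ksgn k t τ • (Ideal.Quotient.mk (srIdeal k K) (X t) * F (insert t τ)) :=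
    neg_one_pow_mul_eq_smul _ _
  rw [h1, map_smul, smul_eq_mul, cf_X_mul]
  split_ifs with h2
  · have h3 : cf hK (α - Finsupp.single t 1) (F (insert t τ)) = 0 := by
      by_contra h4
      obtain ⟨h5, h6⟩ := hF _ _ h4
      rw [Finset.card_insert_of_notMem ht'] at h5
      have h7 : (α - Finsupp.single t 1) + Finsupp.single t 1 = α := by
        ext x
        by_cases hx : x = t
        · subst hx
          have := h2.2
          simp only [Finsupp.add_apply, Finsupp.tsub_apply, Finsupp.single_eq_same]
          omega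
        · simp only [Finsupp.add_apply, Finsupp.tsub_apply]
          rw [Finsupp.single_eq_of_ne hx]
          omega
      have h8 : α.degree = (α - Finsupp.single t 1).degree + 1 := by
        conv_lhs => rw [← h7]
        rw [map_add, Finsupp.degree_single]
      exact hcon ⟨by omega, by omega⟩
    rw [h3, mul_zero]
  · rw [mul_zero]

/-- Exactness in all multidegrees gives exactness of the Koszul complex. -/
theorem koszul_exact (hK : Down K) {i j : ℕ}
    (hex : ∀ γ : Fin m →₀ ℕ, γ.degree = j → Exact k (piece K γ) i) (z : Koszul k K)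
    (hz : z ∈ koszulPart k K i j) (hdz : koszulD k K z = 0) :
    ∃ y ∈ koszulPart k K (i + 1) j, koszulD k K y = z := by
  classical
  have hz' := (mem_koszulPart hK i j z).mp hz
  have key : ∀ γ : Fin m →₀ ℕ, γ.degree = j → ∃ G : Finset (Fin m) → k,
      Supp (piece K γ) (i + 1) G ∧ ∀ τ, bd (piece K γ) G τ = comp hK γ z τ := by
    intro γ hγ
    refine hex γ hγ (comp hK γ z) ?_ ?_
    · intro τ hτ
      unfold comp at hτ
      split_ifs at hτ with h1
      · refine ⟨⟨h1, ?_⟩, (hz' _ _ hτ).1⟩
        by_contra h2
        exact hτ (cf_of_not_mem hK h2 _)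
      · exact absurd rfl hτ
    · intro τ
      by_cases hτ : τ ∈ piece K γ
      · rw [← comp_koszulD hK γ z hτ, hdz]
        simp
      · exact bd_of_not_mem hτ _
  choose! G hG1 hG2 using key
  set S : Finset (Fin m →₀ ℕ) := (Finsupp.finite_of_degree_le (σ := Fin m) j).toFinset.filter
    (fun γ => γ.degree = j) with hS
  have hSmem : ∀ γ, γ ∈ S ↔ γ.degree = j := by
    intro γ
    rw [hS, Finset.mem_filter, Set.Finite.mem_toFinset]
    constructor
    · exact fun h => h.2
    · exact fun h => ⟨le_of_eq h, h⟩
  set y : Koszul k K := fun τ => ∑ γ ∈ S, G γ τ • mon k K (γ - ind τ) with hy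
  -- coefficients of `y`
  have hcoef : ∀ τ α, α.support ∈ K → cf hK α (y τ) =
      if (α + ind τ).degree = j then G (α + ind τ) τ else 0 := by
    intro τ α hα
    rw [hy]
    simp only [map_sum, map_smul, cf_mon, smul_eq_mul]
    have hterm : ∀ γ ∈ S, (G γ τ * if α.support ∈ K ∧ γ - ind τ = α then (1 : k) else 0) =
        if γ = α + ind τ then G γ τ else 0 := by
      intro γ hγ
      rw [hSmem] at hγ
      by_cases h1 : γ = α + ind τ
      · rw [if_pos h1, if_pos ⟨hα, by rw [h1]; exact add_tsub_cancel_right α (ind τ)⟩, mul_one]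
      · rw [if_neg h1]
        by_cases h2 : γ - ind τ = α
        · -- then `τ` is not contained in the support, so `G γ τ = 0`
          have : G γ τ = 0 := by
            by_contra hne
            have h3 := (hG1 γ hγ τ hne).1.1
            apply h1
            ext x
            have h4 := congrArg (fun f => f x) h2
            simp only [Finsupp.tsub_apply, ind_apply] at h4
            rw [Finsupp.add_apply, ind_apply]
            by_cases hx : x ∈ τ
            · have h5 := h3 hx
              rw [Finsupp.mem_support_iff] at h5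
              simp only [hx, if_true] at h4 ⊢
              omega
            · simp only [hx, if_false] at h4 ⊢
              omega
          rw [this, zero_mul]
        · rw [if_neg (fun h => h2 h.2), mul_zero]
    rw [Finset.sum_congr rfl hterm]
    rw [Finset.sum_ite_eq' S (α + ind τ) (fun γ => G γ τ)]
    by_cases h1 : (α + ind τ).degree = j
    · rw [if_pos ((hSmem _).mpr h1), if_pos h1]
    · rw [if_neg (fun h => h1 ((hSmem _).mp h)), if_neg h1]
  have hymem : y ∈ koszulPart k K (i + 1) j := by
    rw [mem_koszulPart hK]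
    intro τ α hne
    have hα : α.support ∈ K := by
      by_contra h
      exact hne (cf_of_not_mem hK h _)
    rw [hcoef τ α hα] at hne
    split_ifs at hne with h1
    · have h2 := (hG1 _ h1 τ hne).2
      refine ⟨h2, ?_⟩
      rw [map_add, degree_ind, h2] at h1
      exact h1
    · exact absurd rfl hne
  refine ⟨y, hymem, ?_⟩
  funext τ
  apply cf_ext hK
  intro α
  by_cases hα : α.support ∈ K
  swap
  · rw [cf_of_not_mem hK hα, cf_of_not_mem hK hα]
  by_cases hdeg : (α + ind τ).degree = j
  · set γ := α + ind τ with hγ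
    have hαγ : γ - ind τ = α := add_tsub_cancel_right α (ind τ)
    have hsub : τ ⊆ γ.support := by
      intro x hx
      rw [Finsupp.mem_support_iff, hγ, Finsupp.add_apply, ind_apply, if_pos hx]
      omega
    have hτ : τ ∈ piece K γ := ⟨hsub, by rw [hαγ]; exact hα⟩
    have h1 := comp_koszulD hK γ y hτ
    rw [hαγ] at h1
    rw [h1]
    have h2 : comp hK γ y = G γ := by
      funext ρ
      unfold comp
      split_ifs with h3
      · by_cases h4 : (γ - ind ρ).support ∈ K
        · have h5 : γ - ind ρ + ind ρ = γ := by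
            ext x
            rw [Finsupp.add_apply, Finsupp.tsub_apply, ind_apply]
            by_cases hx : x ∈ ρ
            · have := h3 hx
              rw [Finsupp.mem_support_iff] at this
              simp only [hx, if_true]
              omega
            · simp [hx]
          rw [hcoef _ _ h4, h5, if_pos hdeg]
        · rw [cf_of_not_mem hK h4]
          by_contra hne
          exact h4 (hG1 γ hdeg ρ (Ne.symm hne)).1.2
      · by_contra hne
        exact h3 (hG1 γ hdeg ρ (Ne.symm hne)).1.1
    rw [h2, hG2 γ hdeg τ, comp, if_pos hsub, hαγ]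
  · have h1 : cf hK α (z τ) = 0 := by
      by_contra hne
      have h2 := hz' τ α hne
      rw [map_add, degree_ind, h2.1] at hdeg
      exact hdeg h2.2
    have h3 : cf hK α (koszulD k K y τ) = 0 := by
      by_contra hne
      have h2 := (mem_koszulPart hK i j _).mp (koszulD_mem hK hymem) τ α hne
      rw [map_add, degree_ind, h2.1] at hdeg
      exact hdeg h2.2
    rw [h1, h3]

end Pool.Agent.Lib_helper98.Betti
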