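import Mathlib
import Pool.Agent.Lib_helper98.Betti.Reduce

set_option autoImplicit false

namespace Pool.Agent.Lib_helper98.Betti

open Finset

variable {m : ℕ}

/-- The set encoded by a bit mask. -/
def dec (m n : ℕ) : Finset (Fin m) := Finset.univ.filter fun i => n.testBit i = true

theorem mem_dec (n : ℕ) (i : Fin m) : i ∈ dec m n ↔ n.testBit i = true := by
  simp [dec]

theorem dec_sub {n c : ℕ} (hn : n < 2 ^ m) : dec m n ⊆ dec m c ↔ n &&& c = n := by
  constructor
  · intro h
    apply Nat.eq_of_testBit_eq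
    intro i
    rw [Nat.testBit_and]
    by_cases hi : i < m
    · by_cases hb : n.testBit i = true
      · have := h ((mem_dec n ⟨i, hi⟩).mpr hb)
        rw [mem_dec] at this
        simp only at this
        rw [hb, this]
        rfl
      · rw [Bool.not_eq_true] at hb
        rw [hb]
        rfl
    · have : n.testBit i = false := Nat.testBit_lt_two_pow
        (lt_of_lt_of_le hn (Nat.pow_le_pow_right (by norm_num) (by omega)))
      rw [this]
      rfl
  · intro h i hi
    rw [mem_dec] at hi ⊢
    have := congrArg (fun x => x.testBit i) h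
    simp only [Nat.testBit_and, hi, Bool.true_and] at this
    exact this

theorem dec_inj {n c : ℕ} (hn : n < 2 ^ m) (hc : c < 2 ^ m) (h : dec m n = dec m c) : n = c := by
  have h1 := (dec_sub (c := c) hn).mp h.subset
  have h2 := (dec_sub (c := n) hc).mp h.symm.subset
  rw [← h1, Nat.land_comm, h2]

theorem dec_surj (J : Finset (Fin m)) : ∃ n < 2 ^ m, dec m n = J := by
  classical
  induction J using Finset.induction_on with
  | empty =>
    refine ⟨0, by positivity, ?_⟩
    ext i
    simp [mem_dec]
  | insert a s _ ih =>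
    obtain ⟨n, hn, hs⟩ := ih
    refine ⟨n ||| 2 ^ (a : ℕ), ?_, ?_⟩
    · apply Nat.or_lt_two_pow hn
      exact Nat.pow_lt_pow_right (by norm_num) a.2
    · ext i
      rw [mem_dec, Finset.mem_insert, ← hs, mem_dec, Nat.testBit_or, Nat.testBit_two_pow]
      simp only [Bool.or_eq_true, decide_eq_true_eq]
      constructor
      · rintro (h | h)
        · exact Or.inr h
        · exact Or.inl (Fin.ext h.symm)
      · rintro (h | h)
        · exact Or.inr (by rw [h])
        · exact Or.inl h

/-- The family of sets encoded by a list. -/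
def fam (m : ℕ) (L : List ℕ) : Set (Finset (Fin m)) := {τ | ∃ n ∈ L, dec m n = τ}

/-- Check that the list can be emptied by the given steps: `(c, d)` with `c ≠ d` removes the free
pair `c ⊂ d`, and `(c, c)` removes the minimal member `c` of cardinality `n₀`. -/
def chk (m n₀ : ℕ) : List (ℕ × ℕ) → List ℕ → Bool
  | [], L => L.isEmpty
  | (c, d) :: steps, L =>
    if c = d then
      decide ((dec m c).card = n₀) && L.all (fun n => decide (n &&& c = n → n = c)) &&
        chk m n₀ steps (L.filter fun n => decide (n ≠ c))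
    else
      decide (∃ v : Fin m, c.testBit v = false ∧ c ||| 2 ^ (v : ℕ) = d) &&
        L.all (fun n => decide (n &&& d = n → n = c ∨ n = d)) && L.contains c && L.contains d &&
        chk m n₀ steps (L.filter fun n => decide (n ≠ c ∧ n ≠ d))

theorem fam_filter_ne {L : List ℕ} (hL : ∀ n ∈ L, n < 2 ^ m) {c : ℕ} (hc : c < 2 ^ m) :
    fam m (L.filter fun n => decide (n ≠ c)) = fam m L \ {dec m c} := by
  ext τ
  simp only [fam, Set.mem_ofPred_eq, List.mem_filter, decide_eq_true_eq, Set.mem_sdiff,
    Set.mem_singleton_iff]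
  constructor
  · rintro ⟨n, ⟨hn, hne⟩, rfl⟩
    exact ⟨⟨n, hn, rfl⟩, fun h => hne (dec_inj (hL n hn) hc h)⟩
  · rintro ⟨⟨n, hn, rfl⟩, hne⟩
    exact ⟨n, ⟨hn, fun h => hne (by rw [h])⟩, rfl⟩

theorem fam_filter_ne2 {L : List ℕ} (hL : ∀ n ∈ L, n < 2 ^ m) {c d : ℕ} (hc : c < 2 ^ m)
    (hd : d < 2 ^ m) :
    fam m (L.filter fun n => decide (n ≠ c ∧ n ≠ d)) = fam m L \ {dec m c, dec m d} := by
  ext τ
  simp only [fam, Set.mem_ofPred_eq, List.mem_filter, decide_eq_true_eq, Set.mem_sdiff,
    Set.mem_insert_iff, Set.mem_singleton_iff, not_or]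
  constructor
  · rintro ⟨n, ⟨hn, hne⟩, rfl⟩
    exact ⟨⟨n, hn, rfl⟩, fun h => hne.1 (dec_inj (hL n hn) hc h),
      fun h => hne.2 (dec_inj (hL n hn) hd h)⟩
  · rintro ⟨⟨n, hn, rfl⟩, hne⟩
    exact ⟨n, ⟨hn, fun h => hne.1 (by rw [h]), fun h => hne.2 (by rw [h])⟩, rfl⟩

theorem red_of_chk {n₀ : ℕ} (steps : List (ℕ × ℕ)) : ∀ (L : List ℕ), (∀ n ∈ L, n < 2 ^ m) →
    chk m n₀ steps L = true → Red n₀ (fam m L) := by
  induction steps with
  | nil =>
    intro L _ h
    have : L = [] := by simpa [chk] using h
    subst this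
    have h1 : fam m [] = ∅ := by
      ext τ
      simp [fam]
    rw [h1]
    exact Red.empty
  | cons p steps ih =>
    obtain ⟨c, d⟩ := p
    intro L hL h
    by_cases hcd : c = d
    · subst hcd
      simp only [chk, if_true, Bool.and_eq_true, decide_eq_true_eq, List.all_eq_true] at h
      obtain ⟨⟨h1, h2⟩, h3⟩ := h
      by_cases hc : c < 2 ^ m
      · refine Red.crit _ (dec m c) h1 ?_ ?_
        · rintro τ ⟨n, hn, rfl⟩ t ht heq
          have hsub : dec m n ⊆ dec m c := by
            rw [← heq]; exact Finset.subset_insert _ _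
          have h4 := h2 n hn ((dec_sub (hL n hn)).mp hsub)
          subst h4
          apply ht
          rw [← heq]
          exact Finset.mem_insert_self _ _
        · rw [← fam_filter_ne hL hc]
          exact ih _ (fun n hn => hL n (List.mem_of_mem_filter hn)) h3
      · -- `c` is not in the list, so nothing is removed
        have : L.filter (fun n => decide (n ≠ c)) = L := by
          rw [List.filter_eq_self]
          intro n hn
          rw [decide_eq_true_eq]
          rintro rfl
          exact hc (hL _ hn)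
        rw [this] at h3
        exact ih L hL h3
    · simp only [chk, if_neg hcd, Bool.and_eq_true, decide_eq_true_eq, List.all_eq_true,
        List.contains_iff_mem] at h
      obtain ⟨⟨⟨⟨⟨v, hv1, hv2⟩, h2⟩, hcL⟩, hdL⟩, h3⟩ := h
      have hc := hL c hcL
      have hd := hL d hdL
      have hvc : v ∉ dec m c := by
        rw [mem_dec, hv1]
        simp
      have hins : insert v (dec m c) = dec m d := by
        ext i
        rw [Finset.mem_insert, mem_dec, mem_dec, ← hv2, Nat.testBit_or, Nat.testBit_two_pow]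
        simp only [Bool.or_eq_true, decide_eq_true_eq]
        constructor
        · rintro (h | h)
          · exact Or.inr (by rw [h])
          · exact Or.inl h
        · rintro (h | h)
          · exact Or.inr h
          · exact Or.inl (Fin.ext h.symm)
      have key : ∀ τ ∈ fam m L, τ ⊆ dec m d → τ = dec m c ∨ τ = dec m d := by
        rintro τ ⟨n, hn, rfl⟩ hsub
        rcases h2 n hn ((dec_sub (hL n hn)).mp hsub) with h | h
        · exact Or.inl (by rw [h])
        · exact Or.inr (by rw [h])
      have hcard : (dec m d).card = (dec m c).card + 1 := by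
        rw [← hins, Finset.card_insert_of_notMem hvc]
      refine Red.pair _ (dec m c) v hvc ⟨c, hcL, rfl⟩ (by rw [hins]; exact ⟨d, hdL, rfl⟩) ?_ ?_ ?_
      · intro τ hτ t ht heq
        have h5 : τ ⊆ dec m d := by
          rw [← hins, ← heq]
          exact (Finset.subset_insert _ _).trans (Finset.subset_insert _ _)
        have h6 : (dec m c).card = τ.card + 1 := by
          rw [← heq, Finset.card_insert_of_notMem ht]
        rcases key τ hτ h5 with h | h
        · rw [h] at h6; omega
        · rw [h] at h6; omega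
      · intro τ hτ t ht heq
        have h5 : τ ⊆ dec m d := by
          rw [← hins, ← heq]
          exact Finset.subset_insert _ _
        have h6 : (dec m d).card = τ.card + 1 := by
          rw [← hins, ← heq, Finset.card_insert_of_notMem ht]
        rcases key τ hτ h5 with h | h
        · exact h
        · rw [h] at h6; omega
      · rw [hins, ← fam_filter_ne2 hL hc hd]
        exact ih _ (fun n hn => hL n (List.mem_of_mem_filter hn)) h3

/-- The complex with the given facets (encoded by masks). -/
def cx (m : ℕ) (facets : List ℕ) : Set (Finset (Fin m)) := {σ | ∃ f ∈ facets, σ ⊆ dec m f}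

/-- The list of masks of faces. -/
def faceList (m : ℕ) (facets : List ℕ) : List ℕ :=
  (List.range (2 ^ m)).filter fun n => facets.any fun f => decide (n &&& f = n)

theorem cx_eq_fam (facets : List ℕ) : cx m facets = fam m (faceList m facets) := by
  ext σ
  simp only [cx, fam, faceList, Set.mem_ofPred_eq, List.mem_filter, List.mem_range,
    List.any_eq_true, decide_eq_true_eq]
  constructor
  · rintro ⟨f, hf, hσ⟩
    obtain ⟨n, hn, rfl⟩ := dec_surj σ
    exact ⟨n, ⟨hn, f, hf, (dec_sub hn).mp hσ⟩, rfl⟩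
  · rintro ⟨n, ⟨hn, f, hf, h⟩, rfl⟩
    exact ⟨f, hf, (dec_sub hn).mpr h⟩

theorem down_cx (facets : List ℕ) : Down (cx m facets) := by
  rintro σ ⟨f, hf, hσ⟩ τ hτ
  exact ⟨f, hf, hτ.trans hσ⟩

/-- The masks of the sets `τ ⊆ J` with `J ∖ τ` a face. -/
def pieceList (FL : List ℕ) (J : ℕ) : List ℕ :=
  (FL.filter fun s => decide (s &&& J = s)).map fun s => J ^^^ s

theorem pieceList_lt {FL : List ℕ} (hFL : ∀ n ∈ FL, n < 2 ^ m) {J : ℕ} (hJ : J < 2 ^ m) :
    ∀ n ∈ pieceList FL J, n < 2 ^ m := by
  intro n hn
  simp only [pieceList, List.mem_map, List.mem_filter] at hn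
  obtain ⟨s, ⟨hs, _⟩, rfl⟩ := hn
  exact Nat.xor_lt_two_pow hJ (hFL s hs)

theorem piece_ind {K : Set (Finset (Fin m))} {FL : List ℕ} (hFL : ∀ n ∈ FL, n < 2 ^ m)
    (hK : K = fam m FL) (J : ℕ) :
    piece K (ind (dec m J)) = fam m (pieceList FL J) := by
  have hsup : ∀ τ : Finset (Fin m), τ ⊆ dec m J → (ind (dec m J) - ind τ).support = dec m J \ τ := by
    intro τ _
    ext i
    rw [Finsupp.mem_support_iff, Finsupp.tsub_apply, ind_apply, ind_apply, Finset.mem_sdiff]
    by_cases h1 : i ∈ dec m J <;> by_cases h2 : i ∈ τ <;> simp [h1, h2]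
  have hx : ∀ s, dec m s ⊆ dec m J → dec m (J ^^^ s) = dec m J \ dec m s := by
    intro s hs
    ext i
    rw [Finset.mem_sdiff, mem_dec, mem_dec, mem_dec, Nat.testBit_xor]
    have := @hs i
    rw [mem_dec, mem_dec] at this
    cases h1 : J.testBit i <;> cases h2 : s.testBit i <;> simp_all
  ext τ
  simp only [piece, Set.mem_ofPred_eq, fam, ind_support, pieceList, List.mem_map,
    List.mem_filter, decide_eq_true_eq]
  constructor
  · rintro ⟨h1, h2⟩
    rw [hsup τ h1, hK] at h2
    obtain ⟨s, hs, hsτ⟩ := h2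
    have hsJ : dec m s ⊆ dec m J := by rw [hsτ]; exact Finset.sdiff_subset
    refine ⟨J ^^^ s, ⟨s, ⟨hs, (dec_sub (hFL s hs)).mp hsJ⟩, rfl⟩, ?_⟩
    rw [hx s hsJ, hsτ, Finset.sdiff_sdiff_eq_self h1]
  · rintro ⟨_, ⟨s, ⟨hs, h1⟩, rfl⟩, rfl⟩
    have hsJ : dec m s ⊆ dec m J := (dec_sub (hFL s hs)).mpr h1
    rw [hx s hsJ]
    refine ⟨Finset.sdiff_subset, ?_⟩
    rw [hsup _ Finset.sdiff_subset, Finset.sdiff_sdiff_eq_self hsJ, hK]
    exact ⟨s, hs, rfl⟩

theorem good_piece {K : Set (Finset (Fin m))} (hK : Down K) (γ : Fin m →₀ ℕ) :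
    Good (piece K γ) := by
  intro τ hτ s t hst
  refine ⟨(Finset.subset_insert _ _).trans hst.1, hK _ hτ.2 _ ?_⟩
  intro i hi
  rw [Finsupp.mem_support_iff, Finsupp.tsub_apply, ind_apply] at hi ⊢
  by_cases h : i ∈ τ
  · have : i ∈ insert t τ := Finset.mem_insert_of_mem h
    simpa [h, this] using hi
  · simp only [h, if_false]
    split_ifs at hi <;> omega

/-- Multidegrees that are not squarefree give exact pieces. -/
theorem exact_of_two_le {k : Type*} [Field k] {K : Set (Finset (Fin m))} {γ : Fin m →₀ ℕ}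
    {t : Fin m} (ht : 2 ≤ γ t) (i : ℕ) : Exact k (piece K γ) i := by
  refine exact_of_cone t ?_ i
  intro τ
  have hts : t ∈ γ.support := by rw [Finsupp.mem_support_iff]; omega
  have h1 : τ ⊆ γ.support ↔ insert t τ ⊆ γ.support := by
    rw [Finset.insert_subset_iff]
    exact ⟨fun h => ⟨hts, h⟩, fun h => h.2⟩
  have h2 : (γ - ind τ).support = (γ - ind (insert t τ)).support := by
    ext i
    rw [Finsupp.mem_support_iff, Finsupp.mem_support_iff, Finsupp.tsub_apply, Finsupp.tsub_apply,
      ind_apply, ind_apply]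
    by_cases hi : i = t
    · subst hi
      by_cases h : i ∈ τ
      · simp [h]
      · simp only [h, if_false, Finset.mem_insert_self, if_true]
        omega
    · simp [Finset.mem_insert, hi]
  simp only [piece, Set.mem_ofPred_eq, ← h1, ← h2]

theorem eq_ind_of_lt_two {γ : Fin m →₀ ℕ} (h : ∀ t, γ t < 2) : γ = ind γ.support := by
  ext t
  rw [ind_apply]
  have := h t
  split_ifs with h1
  · rw [Finsupp.mem_support_iff] at h1; omega
  · rw [Finsupp.mem_support_iff] at h1; omega

end Pool.Agent.Lib_helper98.Betti
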