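import Mathlib
import Pool.Agent.Lib_helper98.Betti.Check
import Pool.Agent.Lib_helper98.Betti.TableA

set_option autoImplicit false

namespace Pool.Agent.Lib_helper98.Betti

/-- The critical cardinality for `J`. -/
def crt (J : ℕ) : ℕ := if J = 255 then 4 else (dec 8 J).card - 2

/-- The check for a block of sixteen consecutive masks. -/
def blk (FL : List ℕ) (T : List (List (ℕ × ℕ))) (b : ℕ) : Bool :=
  (List.range 16).all fun r => chk 8 (crt (16 * b + r)) (T.getD r []) (pieceList FL (16 * b + r))

theorem blkA0 : blk kAFaces kASteps0 0 = true := by decide +kernel
theorem blkA1 : blk kAFaces kASteps1 1 = true := by decide +kernel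
theorem blkA2 : blk kAFaces kASteps2 2 = true := by decide +kernel
theorem blkA3 : blk kAFaces kASteps3 3 = true := by decide +kernel
theorem blkA4 : blk kAFaces kASteps4 4 = true := by decide +kernel
theorem blkA5 : blk kAFaces kASteps5 5 = true := by decide +kernel
theorem blkA6 : blk kAFaces kASteps6 6 = true := by decide +kernel
theorem blkA7 : blk kAFaces kASteps7 7 = true := by decide +kernel
theorem blkA8 : blk kAFaces kASteps8 8 = true := by decide +kernel
theorem blkA9 : blk kAFaces kASteps9 9 = true := by decide +kernel
theorem blkA10 : blk kAFaces kASteps10 10 = true := by decide +kernel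
theorem blkA11 : blk kAFaces kASteps11 11 = true := by decide +kernel
theorem blkA12 : blk kAFaces kASteps12 12 = true := by decide +kernel
theorem blkA13 : blk kAFaces kASteps13 13 = true := by decide +kernel
theorem blkA14 : blk kAFaces kASteps14 14 = true := by decide +kernel
theorem blkA15 : blk kAFaces kASteps15 15 = true := by decide +kernel

theorem facesA : faceList 8 kAFacets = kAFaces := by decide +kernel

end Pool.Agent.Lib_helper98.Betti
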