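import Mathlib
import Pool.Agent.Lib_helper98.Betti.Check
import Pool.Agent.Lib_helper98.Betti.TableB
import Pool.Agent.Lib_helper98.Betti.ChkA

set_option autoImplicit false

namespace Pool.Agent.Lib_helper98.Betti

theorem blkB0 : blk kBFaces kBSteps0 0 = true := by decide +kernel
theorem blkB1 : blk kBFaces kBSteps1 1 = true := by decide +kernel
theorem blkB2 : blk kBFaces kBSteps2 2 = true := by decide +kernel
theorem blkB3 : blk kBFaces kBSteps3 3 = true := by decide +kernel
theorem blkB4 : blk kBFaces kBSteps4 4 = true := by decide +kernel
theorem blkB5 : blk kBFaces kBSteps5 5 = true := by decide +kernel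
theorem blkB6 : blk kBFaces kBSteps6 6 = true := by decide +kernel
theorem blkB7 : blk kBFaces kBSteps7 7 = true := by decide +kernel
theorem blkB8 : blk kBFaces kBSteps8 8 = true := by decide +kernel
theorem blkB9 : blk kBFaces kBSteps9 9 = true := by decide +kernel
theorem blkB10 : blk kBFaces kBSteps10 10 = true := by decide +kernel
theorem blkB11 : blk kBFaces kBSteps11 11 = true := by decide +kernel
theorem blkB12 : blk kBFaces kBSteps12 12 = true := by decide +kernel
theorem blkB13 : blk kBFaces kBSteps13 13 = true := by decide +kernel
theorem blkB14 : blk kBFaces kBSteps14 14 = true := by decide +kernel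
theorem blkB15 : blk kBFaces kBSteps15 15 = true := by decide +kernel

theorem facesB : faceList 8 kBFacets = kBFaces := by decide +kernel

end Pool.Agent.Lib_helper98.Betti
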