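import Mathlib
import Pool.Agent.Lib_helper98.Betti.Reduce

set_option autoImplicit false

namespace Pool.Agent.Lib_helper98.Betti

open MvPolynomial Finset

universe u

variable {k : Type u} [Field k] {m : ℕ} {K : Set (Finset (Fin m))}

/-- The index set of the monomial basis of the bidegree `(-i, 2j)` part of the Koszul complex. -/
def Idx (K : Set (Finset (Fin m))) (i j : ℕ) : Type :=
  {p : Finset (Fin m) × (Fin m →₀ ℕ) // p.1.card = i ∧ p.2.degree + i = j ∧ p.2.support ∈ K}

instance (i j : ℕ) : Finite (Idx K i j) := by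
  have h : Set.Finite {p : Finset (Fin m) × (Fin m →₀ ℕ) |
      p.1.card = i ∧ p.2.degree + i = j ∧ p.2.support ∈ K} := by
    refine Set.Finite.subset (Set.finite_univ.prod (Finsupp.finite_of_degree_le (σ := Fin m) j)) ?_
    rintro ⟨τ, α⟩ ⟨_, h2, _⟩
    refine ⟨Set.mem_univ _, ?_⟩
    change α.degree ≤ j
    simp only at h2
    omega
  exact h.to_subtype

open Classical in
/-- The coordinates of an element of the bidegree `(-i, 2j)` part. -/
noncomputable def coords (hK : Down K) (i j : ℕ) :
    ↥(koszulPart k K i j) ≃ₗ[k] (Idx K i j → k) := by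
  haveI : Fintype (Idx K i j) := Fintype.ofFinite _
  refine LinearEquiv.ofBijective
    { toFun := fun F p => cf hK p.1.2 (F.1 p.1.1)
      map_add' := by
        intro F G
        funext p
        simp only [Submodule.coe_add, Pi.add_apply, map_add]
      map_smul' := by
        intro c F
        funext p
        simp only [Submodule.coe_smul, Pi.smul_apply, map_smul, RingHom.id_apply] } ⟨?_, ?_⟩
  · intro F G h
    apply Subtype.ext
    funext τ
    apply cf_ext hK
    intro α
    by_cases hp : τ.card = i ∧ α.degree + i = j ∧ α.support ∈ K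
    · exact congrFun h ⟨(τ, α), hp⟩
    · have h1 : ∀ F : ↥(koszulPart k K i j), cf hK α (F.1 τ) = 0 := by
        intro F
        by_contra hne
        have h2 := (mem_koszulPart hK i j F.1).mp F.2 τ α hne
        refine hp ⟨h2.1, h2.2, ?_⟩
        by_contra h3
        exact hne (cf_of_not_mem hK h3 _)
      rw [h1 F, h1 G]
  · intro g
    refine ⟨⟨fun τ => ∑ p : Idx K i j, if p.1.1 = τ then g p • mon k K p.1.2 else 0, ?_⟩, ?_⟩
    · rw [mem_koszulPart hK]
      intro τ α hne
      rw [map_sum] at hne
      obtain ⟨p, -, hp⟩ := Finset.exists_ne_zero_of_sum_ne_zero hne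
      split_ifs at hp with h1
      · rw [map_smul, cf_mon] at hp
        split_ifs at hp with h2
        · obtain ⟨⟨ρ, β⟩, h3, h4, h5⟩ := p
          simp only at h1 h2 h3 h4
          subst h1
          obtain ⟨h2a, rfl⟩ := h2
          exact ⟨h3, h4⟩
        · simp at hp
      · simp at hp
    · funext p
      change cf hK p.1.2 (∑ q : Idx K i j, if q.1.1 = p.1.1 then g q • mon k K q.1.2 else 0) = g p
      rw [map_sum, Finset.sum_eq_single p]
      · rw [if_pos rfl, map_smul, cf_mon, if_pos ⟨p.2.2.2, rfl⟩, smul_eq_mul, mul_one]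
      · intro q _ hqp
        by_cases h1 : q.1.1 = p.1.1
        · rw [if_pos h1, map_smul, cf_mon, if_neg, smul_zero]
          rintro ⟨_, h2⟩
          exact hqp (Subtype.ext (Prod.ext h1 h2))
        · rw [if_neg h1, map_zero]
      · intro h
        exact absurd (Finset.mem_univ p) h

instance finite_koszulPart [hK : Fact (Down K)] (i j : ℕ) : Module.Finite k ↥(koszulPart k K i j) :=
  Module.Finite.equiv (coords (k := k) hK.out i j).symm

theorem finrank_koszulPart (hK : Down K) (i j : ℕ) :
    Module.finrank k ↥(koszulPart k K i j) = Nat.card (Idx K i j) := by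
  have : Fintype (Idx K i j) := Fintype.ofFinite _
  rw [LinearEquiv.finrank_eq (coords (k := k) hK i j), Module.finrank_fintype_fun_eq_card,
    Nat.card_eq_fintype_card]

/-- A numerical lemma: alternating sums in a complex exact away from one place. -/
theorem num_lemma {p z q z' q' : ℕ → ℕ} {N i₀ : ℕ} (h : ∀ i, p i = z i + q i)
    (h' : ∀ i, p i = z' i + q' i) (h0 : q 0 = 0) (h0' : q' 0 = 0) (htop : ∀ i, N < i → p i = 0)
    (hex : ∀ i, i ≠ i₀ → z i = q (i + 1)) (hex' : ∀ i, i ≠ i₀ → z' i = q' (i + 1)) :
    ∀ i, z i - q (i + 1) = z' i - q' (i + 1) := by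
  have h1 : ∀ i, i ≤ i₀ → q i = q' i := by
    intro i
    induction i with
    | zero => intro _; rw [h0, h0']
    | succ i ih =>
      intro hi
      have h2 := ih (by omega)
      have h3 := hex i (by omega)
      have h4 := hex' i (by omega)
      have h5 := h i
      have h6 := h' i
      omega
  have h2 : ∀ d i, i + d = N + 1 → i₀ < i → q i = q' i := by
    intro d
    induction d with
    | zero =>
      intro i hi _
      have := htop i (by omega)
      have h5 := h i
      have h6 := h' i
      omega
    | succ d ih =>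
      intro i hi hi0
      have h3 := ih (i + 1) (by omega) (by omega)
      have h4 := hex i (by omega)
      have h5 := hex' i (by omega)
      have h6 := h i
      have h7 := h' i
      omega
  have h3 : ∀ i, i₀ < i → q i = q' i := by
    intro i hi
    by_cases hN : i ≤ N + 1
    · exact h2 (N + 1 - i) i (by omega) hi
    · have := htop i (by omega)
      have h5 := h i
      have h6 := h' i
      omega
  intro i
  have h4 : q i = q' i := by
    rcases le_or_gt i i₀ with hi | hi
    · exact h1 i hi
    · exact h3 i hi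
  by_cases hi : i = i₀
  · subst hi
    have h5 := h3 (i + 1) (by omega)
    have h6 := h i
    have h7 := h' i
    omega
  · have h5 := hex i hi
    have h6 := hex' i hi
    omega

theorem comp_koszulD' (hK : Down K) (hG : ∀ γ : Fin m →₀ ℕ, Good (piece K γ))
    (γ : Fin m →₀ ℕ) (F : Koszul k K) :
    comp hK γ (koszulD k K F) = bd (piece K γ) (comp hK γ F) := by
  classical
  funext ρ
  by_cases hρ : ρ ∈ piece K γ
  · rw [← comp_koszulD hK γ F hρ, comp, if_pos hρ.1]
  · rw [bd_of_not_mem hρ, comp]
    split_ifs with h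
    · exact cf_of_not_mem hK (fun h2 => hρ ⟨h, h2⟩) _
    · rfl

theorem koszulD_koszulD (hK : Down K) (hG : ∀ γ : Fin m →₀ ℕ, Good (piece K γ))
    (F : Koszul k K) : koszulD k K (koszulD k K F) = 0 := by
  classical
  funext τ
  apply cf_ext hK
  intro α
  rw [Pi.zero_apply, map_zero]
  by_cases hα : α.support ∈ K
  swap
  · exact cf_of_not_mem hK hα _
  have hαγ : (α + ind τ) - ind τ = α := add_tsub_cancel_right α (ind τ)
  have hsub : τ ⊆ (α + ind τ).support := by
    intro x hx
    rw [Finsupp.mem_support_iff, Finsupp.add_apply, ind_apply, if_pos hx]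
    omega
  have hτ : τ ∈ piece K (α + ind τ) := ⟨hsub, by rw [hαγ]; exact hα⟩
  have h1 := comp_koszulD hK (α + ind τ) (koszulD k K F) hτ
  rw [hαγ, comp_koszulD' hK hG] at h1
  rw [h1]
  refine bd_bd (hG _) _ ?_ τ
  intro ρ hρ
  unfold comp at hρ
  split_ifs at hρ with h2
  · refine ⟨h2, ?_⟩
    by_contra h3
    exact hρ (cf_of_not_mem hK h3 _)
  · exact absurd rfl hρ

theorem map_le_ker (hK : Down K) (hG : ∀ γ : Fin m →₀ ℕ, Good (piece K γ)) (i j : ℕ) :
    (koszulPart k K (i + 1) j).map (koszulD k K) ≤
      koszulPart k K i j ⊓ LinearMap.ker (koszulD k K) := by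
  rintro _ ⟨F, hF, rfl⟩
  exact ⟨koszulD_mem hK hF, koszulD_koszulD hK hG F⟩

theorem finite_part (hK : Down K) (i j : ℕ) : Module.Finite k ↥(koszulPart k K i j) :=
  Module.Finite.equiv (coords (k := k) hK i j).symm

theorem finite_cycles (hK : Down K) (i j : ℕ) :
    Module.Finite k ↥(koszulPart k K i j ⊓ LinearMap.ker (koszulD k K)) := by
  have := finite_part (k := k) hK i j
  exact Module.Finite.of_injective (Submodule.inclusion inf_le_left)
    (Submodule.inclusion_injective _)

theorem betti_eq (hK : Down K) (hG : ∀ γ : Fin m →₀ ℕ, Good (piece K γ)) (i j : ℕ) :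
    betti k K i j = Module.finrank k ↥(koszulPart k K i j ⊓ LinearMap.ker (koszulD k K)) -
      Module.finrank k ↥((koszulPart k K (i + 1) j).map (koszulD k K)) := by
  have := finite_cycles (k := k) hK i j
  have h1 := Submodule.finrank_quotient_add_finrank
    (((koszulPart k K (i + 1) j).map (koszulD k K)).comap
      (koszulPart k K i j ⊓ LinearMap.ker (koszulD k K)).subtype)
  have h2 : Module.finrank k ↥(((koszulPart k K (i + 1) j).map (koszulD k K)).comap
      (koszulPart k K i j ⊓ LinearMap.ker (koszulD k K)).subtype) =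
      Module.finrank k ↥((koszulPart k K (i + 1) j).map (koszulD k K)) :=
    (Submodule.comapSubtypeEquivOfLe (map_le_ker (k := k) hK hG i j)).finrank_eq
  rw [h2] at h1
  have h3 : betti k K i j = Module.finrank k
      (↥(koszulPart k K i j ⊓ LinearMap.ker (koszulD k K)) ⧸
        ((koszulPart k K (i + 1) j).map (koszulD k K)).comap
        (koszulPart k K i j ⊓ LinearMap.ker (koszulD k K)).subtype) := rfl
  omega

theorem rank_nullity (hK : Down K) (i j : ℕ) :
    Module.finrank k ↥(koszulPart k K i j) =
      Module.finrank k ↥(koszulPart k K i j ⊓ LinearMap.ker (koszulD k K)) +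
      Module.finrank k ↥((koszulPart k K i j).map (koszulD k K)) := by
  have := finite_part (k := k) hK i j
  have h1 := LinearMap.finrank_range_add_finrank_ker
    ((koszulD k K).domRestrict (koszulPart k K i j))
  rw [LinearMap.range_domRestrict, LinearMap.ker_domRestrict] at h1
  have h2 : Module.finrank k ↥((LinearMap.ker (koszulD k K)).comap
      (koszulPart k K i j).subtype) =
      Module.finrank k ↥(koszulPart k K i j ⊓ LinearMap.ker (koszulD k K)) := by
    have h3 := (Submodule.equivMapOfInjective (koszulPart k K i j).subtype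
      (Submodule.subtype_injective _) ((LinearMap.ker (koszulD k K)).comap
      (koszulPart k K i j).subtype)).finrank_eq
    rw [Submodule.map_comap_subtype] at h3
    exact h3
  omega

theorem map_zero_part (hK : Down K) (j : ℕ) :
    (koszulPart k K 0 j).map (koszulD k K) = ⊥ := by
  rw [eq_bot_iff]
  rintro _ ⟨F, hF, rfl⟩
  rw [Submodule.mem_bot]
  funext τ
  change (∑ t ∈ τᶜ, (-1 : FaceRing k K) ^ (τ.filter (· < t)).card *
    (Ideal.Quotient.mk (srIdeal k K) (X t) * F (insert t τ))) = 0
  refine Finset.sum_eq_zero fun t _ => ?_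
  have : F (insert t τ) = 0 := by
    by_contra hne
    have := ((hF (insert t τ)).2 hne).1
    rw [Finset.card_eq_zero] at this
    exact (Finset.insert_ne_empty t τ) this
  rw [this, mul_zero, mul_zero]

/-- Two families whose Koszul complexes are exact away from the same place `i₀` (for given `j`)
and have the same dimensions have the same Betti numbers in internal degree `j`. -/
theorem betti_congr {K' : Set (Finset (Fin m))} (hK : Down K) (hK' : Down K')
    (hG : ∀ γ : Fin m →₀ ℕ, Good (piece K γ)) (hG' : ∀ γ : Fin m →₀ ℕ, Good (piece K' γ))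
    (j i₀ : ℕ) (hcard : ∀ i, Nat.card (Idx K i j) = Nat.card (Idx K' i j))
    (hex : ∀ i, i ≠ i₀ → ∀ γ : Fin m →₀ ℕ, γ.degree = j → Exact k (piece K γ) i)
    (hex' : ∀ i, i ≠ i₀ → ∀ γ : Fin m →₀ ℕ, γ.degree = j → Exact k (piece K' γ) i) (i : ℕ) :
    betti k K i j = betti k K' i j := by
  rw [betti_eq hK hG, betti_eq hK' hG']
  have hexact : ∀ {L : Set (Finset (Fin m))} (hL : Down L)
      (hGL : ∀ γ : Fin m →₀ ℕ, Good (piece L γ)),
      (∀ i, i ≠ i₀ → ∀ γ : Fin m →₀ ℕ, γ.degree = j → Exact k (piece L γ) i) →
      ∀ i, i ≠ i₀ → Module.finrank k ↥(koszulPart k L i j ⊓ LinearMap.ker (koszulD k L)) =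
      Module.finrank k ↥((koszulPart k L (i + 1) j).map (koszulD k L)) := by
    intro L hL hGL hexL i hi
    have : koszulPart k L i j ⊓ LinearMap.ker (koszulD k L) =
        (koszulPart k L (i + 1) j).map (koszulD k L) := by
      apply le_antisymm
      · rintro z ⟨hz, hdz⟩
        obtain ⟨y, hy, hyz⟩ := koszul_exact hL (hexL i hi) z hz hdz
        exact ⟨y, hy, hyz⟩
      · exact map_le_ker hL hGL i j
    rw [this]
  refine num_lemma (p := fun i => Module.finrank k ↥(koszulPart k K i j))
    (z := fun i => Module.finrank k ↥(koszulPart k K i j ⊓ LinearMap.ker (koszulD k K)))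
    (q := fun i => Module.finrank k ↥((koszulPart k K i j).map (koszulD k K)))
    (z' := fun i => Module.finrank k ↥(koszulPart k K' i j ⊓ LinearMap.ker (koszulD k K')))
    (q' := fun i => Module.finrank k ↥((koszulPart k K' i j).map (koszulD k K')))
    (N := m) (i₀ := i₀) ?_ ?_ ?_ ?_ ?_ ?_ ?_ i
  · exact fun i => rank_nullity hK i j
  · intro i
    rw [finrank_koszulPart hK, hcard, ← finrank_koszulPart (k := k) hK']
    exact rank_nullity hK' i j
  · rw [map_zero_part hK]
    exact finrank_bot k _
  · rw [map_zero_part hK']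
    exact finrank_bot k _
  · intro i hi
    rw [finrank_koszulPart hK]
    have : IsEmpty (Idx K i j) := by
      constructor
      rintro ⟨⟨τ, α⟩, h1, h2, h3⟩
      have := Finset.card_le_univ τ
      rw [Fintype.card_fin] at this
      simp only at h1
      omega
    exact Nat.card_of_isEmpty
  · exact hexact hK hG hex
  · exact hexact hK' hG' hex'

/-! ### Counting monomials -/

/-- The number of monomials of degree `d` with support `σ` depends only on the size of `σ`. -/
theorem card_support_eq {σ σ' : Finset (Fin m)} (h : σ.card = σ'.card) (d : ℕ) :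
    Nat.card {α : Fin m →₀ ℕ // α.degree = d ∧ α.support = σ} =
    Nat.card {α : Fin m →₀ ℕ // α.degree = d ∧ α.support = σ'} := by
  classical
  obtain ⟨e, he⟩ : ∃ e : Equiv.Perm (Fin m), σ.map e.toEmbedding = σ' := by
    have e0 : {x // x ∈ σ} ≃ {x // x ∈ σ'} := Finset.equivOfCardEq h
    refine ⟨e0.extendSubtype, ?_⟩
    apply Finset.eq_of_subset_of_card_le
    · intro x hx
      rw [Finset.mem_map] at hx
      obtain ⟨y, hy, rfl⟩ := hx
      exact Equiv.extendSubtype_mem e0 y hy
    · rw [Finset.card_map, h]
  refine Nat.card_congr ?_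
  refine (Equiv.subtypeEquiv (Finsupp.domCongr (M := ℕ) e).toEquiv ?_)
  intro α
  have h1 : ((Finsupp.domCongr (M := ℕ) e) α).degree = α.degree := by
    simp only [Finsupp.domCongr_apply, Finsupp.degree_eq_sum]
    exact Fintype.sum_equiv e.symm _ _ (fun x => by simp [Finsupp.equivMapDomain_apply])
  have h2 : ((Finsupp.domCongr (M := ℕ) e) α).support = α.support.map e.toEmbedding := by
    ext x
    simp [Finsupp.domCongr_apply, Finsupp.equivMapDomain_apply]
  change _ ↔ ((Finsupp.domCongr (M := ℕ) e) α).degree = d ∧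
    ((Finsupp.domCongr (M := ℕ) e) α).support = σ'
  rw [h1, h2, ← he]
  constructor
  · rintro ⟨a, rfl⟩
    exact ⟨a, rfl⟩
  · rintro ⟨a, b⟩
    exact ⟨a, Finset.map_injective _ b⟩

end Pool.Agent.Lib_helper98.Betti
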