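import Mathlib
import Pool.Agent.Lib_helper98.Betti.Dim
import Pool.Agent.Lib_helper98.Betti.ChkA
import Pool.Agent.Lib_helper98.Betti.ChkB

set_option autoImplicit false

namespace Pool.Agent.Lib_helper98.Betti

open Finset

universe u

/-- The place where homology sits in internal degree `j`. -/
def iz (j : ℕ) : ℕ := if j = 8 then 4 else j - 2

theorem red_of_blk {FL : List ℕ} (hFL : ∀ n ∈ FL, n < 2 ^ 8) {K : Set (Finset (Fin 8))}
    (hK : K = fam 8 FL) {T : List (List (ℕ × ℕ))} {b : ℕ} (hb : blk FL T b = true) {r : ℕ}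
    (hr : r < 16) (hJ : 16 * b + r < 2 ^ 8) :
    Red (crt (16 * b + r)) (piece K (ind (dec 8 (16 * b + r)))) := by
  rw [piece_ind hFL hK]
  unfold blk at hb
  rw [List.all_eq_true] at hb
  exact red_of_chk _ _ (pieceList_lt hFL hJ) (hb r (List.mem_range.mpr hr))

theorem exact_of_blks {FL : List ℕ} (hFL : ∀ n ∈ FL, n < 2 ^ 8) {K : Set (Finset (Fin 8))}
    (hK : K = fam 8 FL) (hdown : Down K) (T : ℕ → List (List (ℕ × ℕ)))
    (hb : ∀ b < 16, blk FL (T b) b = true) (k : Type u) [Field k] (j i : ℕ) (hi : i ≠ iz j)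
    (γ : Fin 8 →₀ ℕ) (hγ : γ.degree = j) : Exact k (piece K γ) i := by
  by_cases h2 : ∃ t, 2 ≤ γ t
  · obtain ⟨t, ht⟩ := h2
    exact exact_of_two_le ht i
  · push Not at h2
    have h3 := eq_ind_of_lt_two h2
    obtain ⟨J, hJ, hdec⟩ := dec_surj γ.support
    have hJ' : J = 16 * (J / 16) + J % 16 := by omega
    have hJ8 : J < 256 := by simpa using hJ
    have hred := red_of_blk hFL hK (hb (J / 16) (by omega)) (r := J % 16) (by omega)
      (by rw [← hJ']; exact hJ)
    rw [← hJ', hdec, ← h3] at hred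
    refine exact_of_red hred (good_piece hdown γ) ?_
    have hcard : (dec 8 J).card = j := by
      rw [hdec, ← degree_ind, ← h3, hγ]
    have : crt J = iz j := by
      unfold crt iz
      by_cases h8 : J = 255
      · subst h8
        have : (dec 8 255).card = 8 := by decide
        rw [if_pos rfl, if_pos (by rw [← hcard, this])]
      · rw [if_neg h8, hcard, if_neg]
        intro hj
        apply h8
        apply dec_inj (m := 8) hJ (by norm_num)
        have h4 : dec 8 255 = Finset.univ := by decide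
        rw [h4]
        apply Finset.eq_univ_of_card
        rw [hcard, hj]
        rfl
    rw [this]
    exact hi

/-- The first complex. -/
abbrev KA : Set (Finset (Fin 8)) := cx 8 kAFacets

/-- The second complex. -/
abbrev KB : Set (Finset (Fin 8)) := cx 8 kBFacets

theorem famA : KA = fam 8 kAFaces := (cx_eq_fam _).trans (by rw [facesA])

theorem famB : KB = fam 8 kBFaces := (cx_eq_fam _).trans (by rw [facesB])

theorem ltA : ∀ n ∈ kAFaces, n < 2 ^ 8 := by decide

theorem ltB : ∀ n ∈ kBFaces, n < 2 ^ 8 := by decide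

/-- All tables. -/
def tA : ℕ → List (List (ℕ × ℕ))
  | 0 => kASteps0 | 1 => kASteps1 | 2 => kASteps2 | 3 => kASteps3 | 4 => kASteps4
  | 5 => kASteps5 | 6 => kASteps6 | 7 => kASteps7 | 8 => kASteps8 | 9 => kASteps9
  | 10 => kASteps10 | 11 => kASteps11 | 12 => kASteps12 | 13 => kASteps13
  | 14 => kASteps14 | _ => kASteps15

/-- All tables. -/
def tB : ℕ → List (List (ℕ × ℕ))
  | 0 => kBSteps0 | 1 => kBSteps1 | 2 => kBSteps2 | 3 => kBSteps3 | 4 => kBSteps4
  | 5 => kBSteps5 | 6 => kBSteps6 | 7 => kBSteps7 | 8 => kBSteps8 | 9 => kBSteps9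
  | 10 => kBSteps10 | 11 => kBSteps11 | 12 => kBSteps12 | 13 => kBSteps13
  | 14 => kBSteps14 | _ => kBSteps15

theorem exactA (k : Type u) [Field k] (j i : ℕ) (hi : i ≠ iz j) (γ : Fin 8 →₀ ℕ)
    (hγ : γ.degree = j) : Exact k (piece KA γ) i := by
  refine exact_of_blks ltA famA (down_cx _) tA ?_ k j i hi γ hγ
  intro b hb
  interval_cases b
  exacts [blkA0, blkA1, blkA2, blkA3, blkA4, blkA5, blkA6, blkA7, blkA8, blkA9, blkA10, blkA11,
    blkA12, blkA13, blkA14, blkA15]

theorem exactB (k : Type u) [Field k] (j i : ℕ) (hi : i ≠ iz j) (γ : Fin 8 →₀ ℕ)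
    (hγ : γ.degree = j) : Exact k (piece KB γ) i := by
  refine exact_of_blks ltB famB (down_cx _) tB ?_ k j i hi γ hγ
  intro b hb
  interval_cases b
  exacts [blkB0, blkB1, blkB2, blkB3, blkB4, blkB5, blkB6, blkB7, blkB8, blkB9, blkB10, blkB11,
    blkB12, blkB13, blkB14, blkB15]

/-! ### Equality of dimensions -/

/-- The basis elements with monomial of support `σ`. -/
def SIdx {m : ℕ} (σ : Finset (Fin m)) (i j : ℕ) : Type :=
  {p : Finset (Fin m) × (Fin m →₀ ℕ) // p.1.card = i ∧ p.2.degree + i = j ∧ p.2.support = σ}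

theorem finite_SIdx {m : ℕ} (σ : Finset (Fin m)) (i j : ℕ) : Finite (SIdx σ i j) := by
  have h : Set.Finite {p : Finset (Fin m) × (Fin m →₀ ℕ) |
      p.1.card = i ∧ p.2.degree + i = j ∧ p.2.support = σ} := by
    refine Set.Finite.subset (Set.finite_univ.prod (Finsupp.finite_of_degree_le (σ := Fin m) j)) ?_
    rintro ⟨τ, α⟩ ⟨_, h2, _⟩
    refine ⟨Set.mem_univ _, ?_⟩
    change α.degree ≤ j
    simp only at h2
    omega
  exact h.to_subtype

theorem card_SIdx {m : ℕ} {σ σ' : Finset (Fin m)} (h : σ.card = σ'.card) (i j : ℕ) :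
    Nat.card (SIdx σ i j) = Nat.card (SIdx σ' i j) := by
  have key : ∀ ρ : Finset (Fin m), Nat.card (SIdx ρ i j) =
      if i ≤ j then Nat.card {τ : Finset (Fin m) // τ.card = i} *
        Nat.card {α : Fin m →₀ ℕ // α.degree = j - i ∧ α.support = ρ} else 0 := by
    intro ρ
    split_ifs with hij
    · rw [← Nat.card_prod]
      refine Nat.card_congr ?_
      exact
        { toFun := fun p => (⟨p.1.1, p.2.1⟩, ⟨p.1.2, by have := p.2.2.1; omega, p.2.2.2⟩)
          invFun := fun p => ⟨(p.1.1, p.2.1), p.1.2, by have := p.2.2.1; simp only; omega, p.2.2.2⟩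
          left_inv := fun _ => rfl
          right_inv := fun _ => rfl }
    · have : IsEmpty (SIdx ρ i j) := by
        constructor
        rintro ⟨p, _, h2, _⟩
        omega
      exact Nat.card_of_isEmpty
  rw [key, key, card_support_eq h]

theorem card_Idx {m : ℕ} (FK : Finset (Finset (Fin m))) {K : Set (Finset (Fin m))}
    (hK : K = ↑FK) (i j : ℕ) : Nat.card (Idx K i j) = ∑ σ ∈ FK, Nat.card (SIdx σ i j) := by
  classical
  subst hK
  have e : Idx (↑FK : Set (Finset (Fin m))) i j ≃ Σ σ : {σ // σ ∈ FK}, SIdx σ.1 i j :=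
    { toFun := fun p => ⟨⟨p.1.2.support, p.2.2.2⟩, ⟨p.1, p.2.1, p.2.2.1, rfl⟩⟩
      invFun := fun q => ⟨q.2.1, q.2.2.1, q.2.2.2.1, by
        have h1 := q.2.2.2.2
        have h2 := q.1.2
        rw [h1]
        exact h2⟩
      left_inv := fun _ => rfl
      right_inv := by
        rintro ⟨⟨σ, hσ⟩, ⟨p, hp⟩⟩
        have h3 : p.2.support = σ := hp.2.2
        subst h3
        rfl }
  rw [Nat.card_congr e]
  have : ∀ σ : {σ // σ ∈ FK}, Finite (SIdx σ.1 i j) := fun σ => finite_SIdx _ _ _
  rw [Nat.card_sigma, Finset.sum_coe_sort FK (fun σ => Nat.card (SIdx σ i j))]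

theorem card_Idx_congr {m : ℕ} (FK FK' : Finset (Finset (Fin m))) {K K' : Set (Finset (Fin m))}
    (hK : K = ↑FK) (hK' : K' = ↑FK')
    (hf : ∀ s ∈ Finset.range (m + 1), (FK.filter fun σ => σ.card = s).card =
      (FK'.filter fun σ => σ.card = s).card) (i j : ℕ) :
    Nat.card (Idx K i j) = Nat.card (Idx K' i j) := by
  classical
  rw [card_Idx FK hK, card_Idx FK' hK']
  have hmaps : ∀ (A : Finset (Finset (Fin m))), ∀ σ ∈ A, σ.card ∈ Finset.range (m + 1) := by
    intro A σ _
    have := Finset.card_le_univ σ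
    rw [Fintype.card_fin] at this
    exact Finset.mem_range.mpr (by omega)
  rw [← Finset.sum_fiberwise_of_maps_to (hmaps FK), ← Finset.sum_fiberwise_of_maps_to (hmaps FK')]
  refine Finset.sum_congr rfl fun s hs => ?_
  have h1 := hf s hs
  have e : {σ // σ ∈ FK.filter fun σ => σ.card = s} ≃
      {σ // σ ∈ FK'.filter fun σ => σ.card = s} := Finset.equivOfCardEq h1
  rw [← Finset.sum_coe_sort (FK.filter fun σ => σ.card = s),
    ← Finset.sum_coe_sort (FK'.filter fun σ => σ.card = s)]
  refine Fintype.sum_equiv e _ _ fun σ => ?_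
  apply card_SIdx
  have h2 := (Finset.mem_filter.mp σ.2).2
  have h3 := (Finset.mem_filter.mp (e σ).2).2
  rw [h2, h3]

theorem fam_eq_coe (FL : List ℕ) : fam 8 FL = ↑((FL.map (dec 8)).toFinset) := by
  ext τ
  simp [fam]

theorem fvec : ∀ s ∈ Finset.range (8 + 1),
    (((kAFaces.map (dec 8)).toFinset).filter fun σ => σ.card = s).card =
      (((kBFaces.map (dec 8)).toFinset).filter fun σ => σ.card = s).card := by
  decide +kernel

/-- **The bigraded Betti numbers of the two complexes agree, over every field.** -/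
theorem betti_KA_eq_KB (k : Type u) [Field k] (i j : ℕ) : betti k KA i j = betti k KB i j := by
  refine betti_congr (down_cx _) (down_cx _) (good_piece (down_cx _)) (good_piece (down_cx _)) j
    (iz j) ?_ ?_ ?_ i
  · intro i
    exact card_Idx_congr _ _ (famA.trans (fam_eq_coe _)) (famB.trans (fam_eq_coe _)) fvec i j
  · exact fun i hi γ hγ => exactA k j i hi γ hγ
  · exact fun i hi γ hγ => exactB k j i hi γ hγ

end Pool.Agent.Lib_helper98.Betti
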